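import Mathlib

/-!
# 2-to-1 games, local consistency and resolution-type refutations

The definitions used by the statements.
-/

set_option autoImplicit false

namespace Pool.Agent.MP_ec946a

/-- A 2-to-1 game with alphabet `Fin q`: a bipartite constraint instance with finite vertex sets
`U`, `V` and a nonempty finite set of edges `E` (parallel edges are allowed).  The edge `e` joins
`src e` to `tgt e` and carries the total map `proj e`, all of whose fibres have at most two
elements. -/
structure Game (q : ℕ) where
  U : Type
  V : Type
  E : Type
  [finU : Fintype U]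
  [finV : Fintype V]
  [finE : Fintype E]
  [neE : Nonempty E]
  src : E → U
  tgt : E → V
  proj : E → Fin q → Fin q
  two_to_one : ∀ e b, Nat.card {a // proj e a = b} ≤ 2

attribute [instance] Game.finU Game.finV Game.finE Game.neE

variable {q : ℕ}

/-- The set of edges satisfied by the labeling `(LU, LV)`. -/
def Game.satisfied (G : Game q) (LU : G.U → Fin q) (LV : G.V → Fin q) : Set G.E :=
  {e | G.proj e (LU (G.src e)) = LV (G.tgt e)}

/-- The value of the game: the largest fraction of edges satisfied by one labeling. -/
noncomputable def Game.value (G : Game q) : ℝ :=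
  ⨆ L : (G.U → Fin q) × (G.V → Fin q),
    (Nat.card (G.satisfied L.1 L.2) : ℝ) / (Nat.card G.E : ℝ)

/-- A partial labeling: `h x = none` means that the vertex `x` is not labelled. -/
abbrev Game.Partial (G : Game q) : Type := G.U ⊕ G.V → Option (Fin q)

/-- `h'` extends `h`. -/
def Game.Extends (G : Game q) (h' h : G.Partial) : Prop :=
  ∀ x a, h x = some a → h' x = some a

/-- The number of labelled vertices. -/
noncomputable def Game.size (G : Game q) (h : G.Partial) : ℕ :=
  {x | h x ≠ none}.ncard

/-- All edges both of whose ends are labelled are satisfied. -/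
def Game.Respects (G : Game q) (h : G.Partial) : Prop :=
  ∀ e a b, h (Sum.inl (G.src e)) = some a → h (Sum.inr (G.tgt e)) = some b → G.proj e a = b

/-- The game is accepted by the `k`-consistency algorithm (equivalently, Duplicator wins the
existential `k`-pebble game): there is a nonempty family of partial labelings of at most `k`
vertices, respecting all edges, closed under restriction, in which every member with fewer than
`k` labelled vertices can be extended inside the family to any further vertex. -/
def Game.KConsistent (G : Game q) (k : ℕ) : Prop :=
  ∃ H : Set G.Partial, H.Nonempty ∧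
    (∀ h ∈ H, G.size h ≤ k ∧ G.Respects h) ∧
    (∀ h ∈ H, ∀ h', G.Extends h h' → h' ∈ H) ∧
    (∀ h ∈ H, G.size h < k → ∀ x, ∃ h' ∈ H, G.Extends h' h ∧ h' x ≠ none)

/-- A clause: the disjunction of the conditions `g x ∈ C x`. -/
abbrev Game.Clause (G : Game q) : Type := G.U ⊕ G.V → Set (Fin q)

/-- The (total) labeling `g` satisfies the clause `C`. -/
def Game.Holds (G : Game q) (g : G.U ⊕ G.V → Fin q) (C : G.Clause) : Prop :=
  ∃ x, g x ∈ C x

/-- The labeling `g` satisfies the edge `e`. -/
def Game.HoldsEdge (G : Game q) (g : G.U ⊕ G.V → Fin q) (e : G.E) : Prop :=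
  G.proj e (g (Sum.inl (G.src e))) = g (Sum.inr (G.tgt e))

/-- A refutation with `L` lines of the statement that some labeling satisfies all edges.  Every
line is a clause, which follows (for all labelings) from at most two premises, each premise being
an earlier line or the constraint of one edge; some line is the empty clause. -/
structure Game.Refutation (G : Game q) (L : ℕ) where
  line : Fin L → G.Clause
  sound : ∀ t, ∃ (P : Finset (Fin L)) (Q : Finset G.E), P.card + Q.card ≤ 2 ∧
    (∀ s ∈ P, s < t) ∧ ∀ g : G.U ⊕ G.V → Fin q,
      (∀ s ∈ P, G.Holds g (line s)) → (∀ e ∈ Q, G.HoldsEdge g e) → G.Holds g (line t)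
  last : ∃ t, ∀ x, line t x = ∅

end Pool.Agent.MP_ec946a
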