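import Mathlib

set_option autoImplicit false

namespace Pool.Agent.MP_ec946a

open Finset

section
variable (p : ℕ) [hp : Fact p.Prime]

/-- the projection with centre `c` -/
def fold (c : ZMod p) : Option (ZMod p) → Fin (p / 2 + 1)
  | none => 0
  | some x => ⟨(x - c).valMinAbs.natAbs, by
      have := ZMod.natAbs_valMinAbs_le (x - c)
      omega⟩

theorem fold_none (c : ZMod p) : fold p c none = 0 := rfl

theorem fold_some_val (c x : ZMod p) : (fold p c (some x)).val = (x - c).valMinAbs.natAbs := rfl

theorem fold_some_self (c : ZMod p) : fold p c (some c) = 0 := by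
  apply Fin.ext
  rw [fold_some_val]
  simp

theorem natAbs_vma_eq_iff (x y : ZMod p) :
    x.valMinAbs.natAbs = y.valMinAbs.natAbs ↔ x = y ∨ x = - y := by
  constructor
  · intro h
    rcases Int.natAbs_eq_natAbs_iff.1 h with h1 | h1
    · left
      have := congrArg (fun z : ℤ => (z : ZMod p)) h1
      simpa using this
    · right
      have := congrArg (fun z : ℤ => (z : ZMod p)) h1
      simpa using this
  · rintro (rfl | rfl)
    · rfl
    · rw [ZMod.natAbs_valMinAbs_neg]

theorem fold_some_eq_iff (c x y : ZMod p) :
    fold p c (some x) = fold p c (some y) ↔ x - c = y - c ∨ x - c = -(y - c) := by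
  rw [← natAbs_vma_eq_iff, ← fold_some_val, ← fold_some_val, Fin.ext_iff]

theorem fold_some_eq_zero_iff (c x : ZMod p) : fold p c (some x) = 0 ↔ x = c := by
  rw [← fold_some_self p c, fold_some_eq_iff]
  simp [sub_eq_zero]

theorem fold_surj (c : ZMod p) (b : Fin (p / 2 + 1)) : ∃ x : ZMod p, fold p c (some x) = b := by
  refine ⟨c + (b.val : ZMod p), ?_⟩
  apply Fin.ext
  rw [fold_some_val, add_sub_cancel_left, ZMod.valMinAbs_natCast_of_le_half]
  · simp
  · have := b.isLt; omega

theorem two_ne (hp2 : p ≠ 2) : (2 : ZMod p) ≠ 0 := by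
  intro h
  have h1 : ((2 : ℕ) : ZMod p) = 0 := by exact_mod_cast h
  rw [ZMod.natCast_eq_zero_iff] at h1
  have := Nat.le_of_dvd (by norm_num) h1
  have := hp.out.two_le
  omega

/-- all fibres have two elements -/
theorem fold_fibre (hp2 : p ≠ 2) (c : ZMod p) (b : Fin (p / 2 + 1)) :
    (univ.filter fun a => fold p c a = b).card = 2 := by
  by_cases hb : b = 0
  · subst hb
    have : (univ.filter fun a => fold p c a = 0) = {none, some c} := by
      ext a
      cases a with
      | none => simp [fold_none]
      | some x => simp [fold_some_eq_zero_iff]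
    rw [this, card_pair (by simp)]
  · obtain ⟨x, hx⟩ := fold_surj p c b
    have hxc : x - c ≠ 0 := by
      intro h
      apply hb
      rw [← hx, fold_some_eq_zero_iff]
      exact sub_eq_zero.1 h
    have hne : x - c ≠ -(x - c) := by
      intro h
      have h2 : (2 : ZMod p) * (x - c) = 0 := by linear_combination h
      rcases mul_eq_zero.1 h2 with h3 | h3
      · exact two_ne p hp2 h3
      · exact hxc h3
    have : (univ.filter fun a => fold p c a = b) = {some x, some (c - (x - c))} := by
      ext a
      cases a with
      | none =>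
        simp only [mem_filter, mem_univ, true_and, fold_none, mem_insert, mem_singleton]
        constructor
        · intro h; exact absurd h.symm hb
        · intro h; rcases h with h | h <;> cases h
      | some y =>
        simp only [mem_filter, mem_univ, true_and, mem_insert, mem_singleton, Option.some.injEq]
        rw [← hx, fold_some_eq_iff]
        constructor
        · rintro (h | h)
          · left; linear_combination h
          · right; linear_combination h
        · rintro (h | h)
          · left; rw [h]
          · right; rw [h]; ring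
    rw [this, card_pair]
    intro h
    apply hne
    have h2 : x = c - (x - c) := Option.some.inj h
    linear_combination h2

/-- A set closed under the fibres of two different projections is trivial. -/
theorem closed_trivial_aux (hp2 : p ≠ 2) (c d : ZMod p) (hcd : c ≠ d) (T : Set (Option (ZMod p)))
    (h1 : ∀ x y, x ∈ T → fold p c x = fold p c y → y ∈ T)
    (h2 : ∀ x y, x ∈ T → fold p d x = fold p d y → y ∈ T) (hn : none ∉ T) : T = ∅ := by
  by_contra hT
  obtain ⟨a, ha⟩ := Set.nonempty_iff_ne_empty.2 hT
  cases a with
  | none => exact hn ha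
  | some x =>
    have hc : some c ∉ T := by
      intro h
      exact hn (h1 _ _ h (by rw [fold_some_self, fold_none]))
    have step : ∀ z, some z ∈ T → some (z + 2 * (d - c)) ∈ T := by
      intro z hz
      have h3 : some (2 * c - z) ∈ T := by
        apply h1 _ _ hz
        rw [fold_some_eq_iff]
        right; ring
      apply h2 _ _ h3
      rw [fold_some_eq_iff]
      right; ring
    have h4 : ∀ k : ℕ, some (x + k * (2 * (d - c))) ∈ T := by
      intro k
      induction k with
      | zero => simpa using ha
      | succ k ih =>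
        have := step _ ih
        have h5 : x + k * (2 * (d - c)) + 2 * (d - c) = x + ((k + 1 : ℕ) : ZMod p) * (2 * (d - c)) := by
          push_cast; ring
        rwa [h5] at this
    have hne : 2 * (d - c) ≠ 0 := mul_ne_zero (two_ne p hp2) (sub_ne_zero.2 (Ne.symm hcd))
    apply hc
    have h6 := h4 ((c - x) / (2 * (d - c))).val
    have h7 : x + (((c - x) / (2 * (d - c))).val : ZMod p) * (2 * (d - c)) = c := by
      rw [ZMod.natCast_zmod_val, div_mul_cancel₀ _ hne]
      ring
    rwa [h7] at h6

theorem closed_trivial (hp2 : p ≠ 2) (c d : ZMod p) (hcd : c ≠ d) (T : Set (Option (ZMod p)))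
    (h1 : ∀ x y, x ∈ T → fold p c x = fold p c y → y ∈ T)
    (h2 : ∀ x y, x ∈ T → fold p d x = fold p d y → y ∈ T) : T = ∅ ∨ T = Set.univ := by
  by_cases hn : none ∈ T
  · right
    have h3 : Tᶜ = ∅ := by
      apply closed_trivial_aux p hp2 c d hcd Tᶜ
      · intro x y hx hxy hy
        exact hx (h1 y x hy hxy.symm)
      · intro x y hx hxy hy
        exact hx (h2 y x hy hxy.symm)
      · exact fun h => h hn
    exact Set.compl_empty_iff.1 h3
  · left
    exact closed_trivial_aux p hp2 c d hcd T h1 h2 hn

/-- Sets grow along a path. -/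
theorem fold_expand (hp2 : p ≠ 2) (c d : ZMod p) (hcd : c ≠ d) (S : Finset (Fin (p / 2 + 1)))
    (hS : S ≠ ∅) (hS' : S ≠ univ) :
    S.card < ((univ.filter fun a => fold p c a ∈ S).image (fold p d)).card := by
  classical
  set T := univ.filter fun a => fold p c a ∈ S with hTdef
  set S' := T.image (fold p d) with hS'def
  have hT : T.card = 2 * S.card := by
    have : T = S.biUnion fun b => univ.filter fun a => fold p c a = b := by
      ext a; simp [hTdef]
    rw [this, card_biUnion]
    · rw [sum_congr rfl (fun b _ => fold_fibre p hp2 c b), sum_const, smul_eq_mul, mul_comm]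
    · intro b _ b' _ hbb'
      rw [Function.onFun, disjoint_left]
      intro a ha ha'
      simp only [mem_filter, mem_univ, true_and] at ha ha'
      exact hbb' (ha ▸ ha')
  set T' := univ.filter fun a => fold p d a ∈ S' with hT'def
  have hT' : T'.card = 2 * S'.card := by
    have : T' = S'.biUnion fun b => univ.filter fun a => fold p d a = b := by
      ext a; simp [hT'def]
    rw [this, card_biUnion]
    · rw [sum_congr rfl (fun b _ => fold_fibre p hp2 d b), sum_const, smul_eq_mul, mul_comm]
    · intro b _ b' _ hbb'
      rw [Function.onFun, disjoint_left]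
      intro a ha ha'
      simp only [mem_filter, mem_univ, true_and] at ha ha'
      exact hbb' (ha ▸ ha')
  have hsub : T ⊆ T' := by
    intro a ha
    simp only [hT'def, mem_filter, mem_univ, true_and, hS'def]
    exact mem_image_of_mem _ ha
  have hle : T.card ≤ T'.card := card_le_card hsub
  by_contra hcon
  have heq : T.card = T'.card := by omega
  have hTT : T = T' := eq_of_subset_of_card_le hsub heq.ge
  have hcl := closed_trivial p hp2 c d hcd (T : Set (Option (ZMod p)))
    (by
      intro x y hx hxy
      rw [mem_coe, hTdef, mem_filter] at hx ⊢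
      exact ⟨mem_univ _, hxy ▸ hx.2⟩)
    (by
      intro x y hx hxy
      rw [mem_coe, hTT, hT'def, mem_filter] at hx ⊢
      exact ⟨mem_univ _, hxy ▸ hx.2⟩)
  rcases hcl with h | h
  · have h0 : T = ∅ := by exact_mod_cast h
    rw [h0, card_empty] at hT
    apply hS
    rw [← card_eq_zero]; omega
  · apply hS'
    rw [eq_univ_iff_forall]
    intro b
    obtain ⟨x, hx⟩ := fold_surj p c b
    have h1 : some x ∈ (T : Set (Option (ZMod p))) := by rw [h]; trivial
    rw [mem_coe, hTdef, mem_filter] at h1
    rw [← hx]; exact h1.2

end

/-- The gadget: `D` two-to-one maps `Fin (2 r) → Fin r` such that sets grow when one goes through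
two different ones; here `2 r = p + 1` for an odd prime `p`. -/
theorem gadget_prime (p : ℕ) (hprime : p.Prime) (hp2 : p ≠ 2) (D : ℕ) (hD : D ≤ p) :
    ∃ φ : Fin D → Fin (2 * (p / 2 + 1)) → Fin (p / 2 + 1),
    (∀ j b, (univ.filter fun a => φ j a = b).card = 2) ∧
    ∀ i j, i ≠ j → ∀ S : Finset (Fin (p / 2 + 1)), S ≠ ∅ → S ≠ univ →
      S.card < ((univ.filter fun a => φ i a ∈ S).image (φ j)).card := by
  classical
  have : Fact p.Prime := ⟨hprime⟩
  have hodd : p % 2 = 1 := hprime.eq_two_or_odd.resolve_left hp2
  have hcard : Fintype.card (Option (ZMod p)) = 2 * (p / 2 + 1) := by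
    rw [Fintype.card_option, ZMod.card]; omega
  let e : Fin (2 * (p / 2 + 1)) ≃ Option (ZMod p) := (Fintype.equivFinOfCardEq hcard).symm
  refine ⟨fun j a => fold p ((j : ℕ) : ZMod p) (e a), ?_, ?_⟩
  · intro j b
    refine Eq.trans ?_ (fold_fibre p hp2 ((j : ℕ) : ZMod p) b)
    apply card_bij (fun a _ => e a)
    · intro a ha; simpa using ha
    · intro a _ b _ h; exact e.injective h
    · intro b hb; exact ⟨e.symm b, by simpa using hb, by simp⟩
  · intro i j hij S hS hS'
    have hne : ((i : ℕ) : ZMod p) ≠ ((j : ℕ) : ZMod p) := by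
      intro h
      apply hij
      apply Fin.ext
      have h1 := (ZMod.natCast_eq_natCast_iff' _ _ _).1 h
      rwa [Nat.mod_eq_of_lt (by omega), Nat.mod_eq_of_lt (by omega)] at h1
    have h1 := fold_expand p hp2 _ _ hne S hS hS'
    convert h1 using 2
    ext b
    simp only [mem_image, mem_filter, mem_univ, true_and]
    constructor
    · rintro ⟨a, ha, rfl⟩; exact ⟨e a, ha, rfl⟩
    · rintro ⟨a, ha, rfl⟩; exact ⟨e.symm a, by simpa using ha, by simp⟩

end Pool.Agent.MP_ec946a
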