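import Mathlib

set_option autoImplicit false

namespace Pool.Agent.MP_ec946a

/-- reduced words of length at most `M` over `D` letters -/
@[ext] structure Wd (D M : ℕ) where
  val : List (Fin D)
  chain : val.IsChain (· ≠ ·)
  len : val.length ≤ M

theorem Wd.val_injective {D M : ℕ} : Function.Injective (Wd.val : Wd D M → List (Fin D)) := by
  intro a b h
  exact Wd.ext h

instance (D M : ℕ) : Finite (Wd D M) := by
  have h : Set.Finite {l : List (Fin D) | l.length ≤ M} := List.finite_length_le _ _
  have h2 : Finite {l : List (Fin D) // l ∈ {l : List (Fin D) | l.length ≤ M}} := h.to_subtype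
  exact Finite.of_injective (fun w : Wd D M =>
    (⟨w.val, w.len⟩ : {l : List (Fin D) // l ∈ {l : List (Fin D) | l.length ≤ M}}))
    (fun a b hab => Wd.ext (congrArg Subtype.val hab))

noncomputable instance (D M : ℕ) : DecidableEq (Wd D M) := Classical.decEq _

noncomputable instance (D M : ℕ) : Fintype (Wd D M) := Fintype.ofFinite _

/-- toggle the first letter -/
def toggle {D M : ℕ} (j : Fin D) (w : Wd D M) : Wd D M :=
  if h : w.val.head? = some j then
    ⟨w.val.tail, w.chain.tail, by
      have := w.len
      simp only [List.length_tail]; omega⟩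
  else if h2 : w.val.length < M then
    ⟨j :: w.val, by
      rw [List.isChain_cons]
      refine ⟨?_, w.chain⟩
      intro y hy hj
      apply h
      rw [hj]
      exact hy, by
      simp only [List.length_cons]; omega⟩
  else w

theorem toggle_head {D M : ℕ} (j : Fin D) (w : Wd D M) (h : w.val.head? = some j) :
    (toggle j w).val = w.val.tail := by
  unfold toggle; rw [dif_pos h]

theorem toggle_lt {D M : ℕ} (j : Fin D) (w : Wd D M) (h : ¬ w.val.head? = some j)
    (h2 : w.val.length < M) : (toggle j w).val = j :: w.val := by
  unfold toggle; rw [dif_neg h, dif_pos h2]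

theorem toggle_ge {D M : ℕ} (j : Fin D) (w : Wd D M) (h : ¬ w.val.head? = some j)
    (h2 : ¬ w.val.length < M) : toggle j w = w := by
  unfold toggle; rw [dif_neg h, dif_neg h2]

theorem toggle_toggle {D M : ℕ} (j : Fin D) (w : Wd D M) : toggle j (toggle j w) = w := by
  by_cases h : w.val.head? = some j
  · have hl' : w.val = j :: w.val.tail := by
      cases hw : w.val with
      | nil => rw [hw] at h; simp at h
      | cons a t => rw [hw] at h; simp at h; simp [h]
    have hv := toggle_head j w h
    have hne : ¬ ((toggle j w).val.head? = some j) := by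
      rw [hv]
      intro h2
      have hc := w.chain
      rw [hl', List.isChain_cons] at hc
      exact hc.1 j (by simpa using h2) rfl
    have hlen : (toggle j w).val.length < M := by
      rw [hv]
      have h3 := w.len
      rw [hl'] at h3
      simp only [List.length_cons] at h3
      omega
    apply Wd.ext
    rw [toggle_lt j _ hne hlen, hv, ← hl']
  · by_cases h2 : w.val.length < M
    · have hv := toggle_lt j w h h2
      apply Wd.ext
      rw [toggle_head j _ (by rw [hv]; rfl), hv]
      rfl
    · rw [toggle_ge j w h h2, toggle_ge j w h h2]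

/-- the toggles as permutations -/
def tog {D : ℕ} (M : ℕ) (j : Fin D) : Equiv.Perm (Wd D M) :=
  ⟨toggle j, toggle j, toggle_toggle j, toggle_toggle j⟩

theorem tog_apply {D M : ℕ} (j : Fin D) (w : Wd D M) : tog M j w = toggle j w := rfl

theorem tog_mul_self {D : ℕ} (M : ℕ) (j : Fin D) : tog M j * tog M j = 1 := by
  ext1 w
  exact toggle_toggle j w

/-- the empty word -/
def Wd.emp (D M : ℕ) : Wd D M := ⟨[], List.isChain_nil, Nat.zero_le _⟩

theorem prod_tog_nil {D M : ℕ} (l : List (Fin D)) (hc : l.IsChain (· ≠ ·)) (hl : l.length ≤ M) :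
    ((l.map (tog M)).prod (Wd.emp D M)).val = l := by
  induction l with
  | nil => rfl
  | cons j l ih =>
    have hc' := (List.isChain_cons.1 hc)
    have hl2 : l.length < M := by simp only [List.length_cons] at hl; omega
    have ih' := ih hc'.2 hl2.le
    rw [List.map_cons, List.prod_cons, Equiv.Perm.mul_apply, tog_apply, toggle_lt, ih']
    · rw [ih']
      intro h
      exact hc'.1 j (by simpa using h) rfl
    · rw [ih']; exact hl2

/-- No nonempty reduced word of length at most `M` in the toggles is trivial. -/
theorem prod_tog_ne_one {D M : ℕ} (l : List (Fin D)) (hc : l.IsChain (· ≠ ·))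
    (hl : l.length ≤ M) (hne : l ≠ []) : (l.map (tog M)).prod ≠ 1 := by
  intro h
  have h1 := prod_tog_nil l hc hl
  rw [h, Equiv.Perm.one_apply] at h1
  exact hne h1.symm

end Pool.Agent.MP_ec946a
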