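import Mathlib

set_option autoImplicit false

namespace Pool.Agent.MP_ec946a

open Finset

variable {α : Type*} [Fintype α] [DecidableEq α]

/-- permutations mapping `I` into `T` -/
def intoSet (I T : Finset α) : Finset (Equiv.Perm α) :=
  univ.filter fun s => ∀ i ∈ I, s i ∈ T

theorem mem_intoSet {I T : Finset α} {s : Equiv.Perm α} :
    s ∈ intoSet I T ↔ ∀ i ∈ I, s i ∈ T := by simp [intoSet]

/-- Double counting: adding one more point to `I`. -/
theorem intoSet_insert (I T : Finset α) (i : α) (hi : i ∉ I) :
    (Fintype.card α - I.card) * (intoSet (insert i I) T).card =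
      (T.card - I.card) * (intoSet I T).card := by
  classical
  have h1 : ∑ k ∈ univ \ I, ((intoSet I T).filter fun s => s k ∈ T).card =
      ∑ s ∈ intoSet I T, ((univ \ I).filter fun k => s k ∈ T).card := by
    simp only [card_filter]
    rw [sum_comm]
  have h2 : ∀ k ∈ univ \ I, ((intoSet I T).filter fun s => s k ∈ T).card =
      (intoSet (insert i I) T).card := by
    intro k hk
    have hk' : k ∉ I := by simpa using hk
    apply card_bij (fun s _ => s * Equiv.swap i k)
    · intro s hs
      rw [mem_filter, mem_intoSet] at hs
      rw [mem_intoSet]
      intro x hx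
      rcases mem_insert.1 hx with rfl | hx
      · simpa using hs.2
      · have h3 : x ≠ i := fun h => hi (h ▸ hx)
        have h4 : x ≠ k := fun h => hk' (h ▸ hx)
        simpa [Equiv.swap_apply_of_ne_of_ne h3 h4] using hs.1 x hx
    · intro s _ t _ h
      exact mul_right_cancel h
    · intro s hs
      rw [mem_intoSet] at hs
      refine ⟨s * Equiv.swap i k, ?_, by simp [mul_assoc]⟩
      rw [mem_filter, mem_intoSet]
      constructor
      · intro x hx
        have h3 : x ≠ i := fun h => hi (h ▸ hx)
        have h4 : x ≠ k := fun h => hk' (h ▸ hx)
        simpa [Equiv.swap_apply_of_ne_of_ne h3 h4] using hs x (mem_insert_of_mem hx)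
      · simpa using hs i (mem_insert_self _ _)
  have h3 : ∀ s ∈ intoSet I T, ((univ \ I).filter fun k => s k ∈ T).card =
      T.card - I.card := by
    intro s hs
    rw [mem_intoSet] at hs
    have h4 : ((univ \ I).filter fun k => s k ∈ T) = (univ.filter fun k => s k ∈ T) \ I := by
      ext x; simp only [mem_filter, mem_sdiff, mem_univ, true_and]; tauto
    have h5 : (univ.filter fun k => s k ∈ T).card = T.card := by
      apply card_bij (fun x _ => s x)
      · intro x hx; simpa using hx
      · intro x _ y _ h; exact s.injective h
      · intro y hy; exact ⟨s.symm y, by simpa using hy, by simp⟩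
    rw [h4, card_sdiff_of_subset, h5]
    intro x hx
    simpa using hs x hx
  rw [sum_congr rfl h2, sum_congr rfl h3, sum_const, sum_const, smul_eq_mul, smul_eq_mul,
    card_sdiff_of_subset (subset_univ _), card_univ, mul_comm (intoSet I T).card] at h1
  exact h1

/-- A random permutation maps `I` into `T` with probability at most `(|T|/n)^|I|`. -/
theorem card_intoSet (I T : Finset α) :
    (intoSet I T).card * (Fintype.card α) ^ I.card ≤
      T.card ^ I.card * (Fintype.card α).factorial := by
  classical
  induction I using Finset.induction_on with
  | empty =>
    simp [intoSet, Fintype.card_perm]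
  | insert i I hi ih =>
    rw [card_insert_of_notMem hi]
    have h := intoSet_insert I T i hi
    have hI : I.card < Fintype.card α := by
      have : (insert i I).card ≤ Fintype.card α := card_le_univ _
      rw [card_insert_of_notMem hi] at this
      omega
    have hT : T.card ≤ Fintype.card α := card_le_univ _
    set n := Fintype.card α with hn
    set a := (intoSet (insert i I) T).card
    set b := (intoSet I T).card
    -- a * n ≤ T.card * b
    have key : a * n ≤ T.card * b := by
      have hpos : 0 < n - I.card := by omega
      apply Nat.le_of_mul_le_mul_left _ hpos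
      calc (n - I.card) * (a * n) = ((n - I.card) * a) * n := by ring
        _ = ((T.card - I.card) * b) * n := by rw [h]
        _ = ((T.card - I.card) * n) * b := by ring
        _ ≤ ((n - I.card) * T.card) * b := by
            apply Nat.mul_le_mul_right
            rcases le_total T.card I.card with h1 | h1
            · rw [Nat.sub_eq_zero_of_le h1]; simp
            · zify [h1, hI.le]
              have h2 : (T.card : ℤ) ≤ n := by exact_mod_cast hT
              have h3 : (0 : ℤ) ≤ I.card := by positivity
              nlinarith
        _ = (n - I.card) * (T.card * b) := by ring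
    calc a * n ^ (I.card + 1) = (a * n) * n ^ I.card := by ring
      _ ≤ (T.card * b) * n ^ I.card := Nat.mul_le_mul_right _ key
      _ = T.card * (b * n ^ I.card) := by ring
      _ ≤ T.card * (T.card ^ I.card * n.factorial) := Nat.mul_le_mul_left _ ih
      _ = T.card ^ (I.card + 1) * n.factorial := by ring

end Pool.Agent.MP_ec946a
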