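import Pool.Agent.Lib.MP_ec946a_Games.Core
import Pool.Agent.Lib.MP_ec946a_Games.Group
import Pool.Agent.Lib.MP_ec946a_Games.PermCount

/-!
# Sparse bipartite graphs of large girth (existence by counting)
-/

set_option autoImplicit false

namespace Pool.Agent.MP_ec946a

open Finset

/-- vertices: a permutation of the words, and a point of `Fin n` -/
abbrev Vx (D R n : ℕ) : Type := Equiv.Perm (Wd D R) × Fin n

/-- the choices -/
abbrev Choice (D R n : ℕ) : Type := Equiv.Perm (Wd D R) × Fin D → Equiv.Perm (Fin n)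

/-- the maps `τ_j` -/
def tauOf {D R n : ℕ} (π : Choice D R n) (j : Fin D) (w : Vx D R n) : Vx D R n :=
  (tog R j * w.1, π (w.1, j) w.2)

theorem tauOf_injective {D R n : ℕ} (π : Choice D R n) (j : Fin D) :
    Function.Injective (tauOf π j) := by
  rintro ⟨g, i⟩ ⟨g', i'⟩ h
  simp only [tauOf, Prod.mk.injEq] at h
  obtain ⟨h1, h2⟩ := h
  have hg : g = g' := mul_left_cancel h1
  subst hg
  exact Prod.ext rfl ((π (g, j)).injective h2)

/-- first coordinate of a vertex -/
def fcoord {D R n : ℕ} : Vx D R n ⊕ Vx D R n → Equiv.Perm (Wd D R) :=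
  Sum.elim Prod.fst Prod.fst

/-- the edge map -/
abbrev tgtOf {D R n : ℕ} (π : Choice D R n) : Vx D R n × Fin D → Vx D R n :=
  fun e => tauOf π e.2 e.1

theorem fcoord_vt {D R n : ℕ} (π : Choice D R n) (d : (Vx D R n × Fin D) × Bool) :
    fcoord (vt Prod.fst (tgtOf π) d) =
      tog R d.1.2 * fcoord (vt Prod.fst (tgtOf π) (d.1, !d.2)) := by
  obtain ⟨⟨w, j⟩, b⟩ := d
  cases b
  · simp only [vt, fcoord, tgtOf, tauOf]
    simp [← mul_assoc, tog_mul_self]
  · simp [vt, fcoord, tgtOf, tauOf]

theorem follow_letter {D R n : ℕ} (π : Choice D R n) {d d' : (Vx D R n × Fin D) × Bool}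
    (h : Follow Prod.fst (tgtOf π) d d') : d'.1.2 ≠ d.1.2 := by
  obtain ⟨⟨w, j⟩, b⟩ := d
  obtain ⟨⟨w', j'⟩, b'⟩ := d'
  obtain ⟨h1, h2, h3⟩ := h
  simp only at h1 h2 h3 ⊢
  intro hj
  subst hj
  apply h2
  cases b
  · simp only [vt, Bool.false_eq_true, if_false, Sum.inl.injEq] at h3
    rw [h3]
  · simp only [vt, if_true, Sum.inr.injEq] at h3
    have h4 : w' = w := tauOf_injective π j' h3
    rw [h4]

/-- the word read along a walk -/
def wordOf {D R n : ℕ} (p : ℕ → (Vx D R n × Fin D) × Bool) : ℕ → List (Fin D)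
  | 0 => [(p 0).1.2]
  | k + 1 => (p (k + 1)).1.2 :: wordOf p k

theorem wordOf_length {D R n : ℕ} (p : ℕ → (Vx D R n × Fin D) × Bool) (k : ℕ) :
    (wordOf p k).length = k + 1 := by
  induction k with
  | zero => rfl
  | succ k ih => simp [wordOf, ih]

theorem wordOf_head {D R n : ℕ} (p : ℕ → (Vx D R n × Fin D) × Bool) (k : ℕ) :
    (wordOf p k).head? = some (p k).1.2 := by
  cases k <;> rfl

theorem wordOf_chain {D R n : ℕ} (π : Choice D R n) (p : ℕ → (Vx D R n × Fin D) × Bool) (m : ℕ)
    (h : ∀ i < m, Follow Prod.fst (tgtOf π) (p i) (p (i + 1))) :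
    (wordOf p m).IsChain (· ≠ ·) := by
  induction m with
  | zero => simp [wordOf]
  | succ m ih =>
    have ih' := ih fun i hi => h i (by omega)
    unfold wordOf
    rw [List.isChain_cons]
    refine ⟨?_, ih'⟩
    intro y hy
    rw [wordOf_head] at hy
    have : y = (p m).1.2 := by simpa using hy.symm
    rw [this]
    exact follow_letter π (h m (by omega))

theorem wordOf_prod {D R n : ℕ} (π : Choice D R n) (p : ℕ → (Vx D R n × Fin D) × Bool) (m : ℕ)
    (h : ∀ i < m, Follow Prod.fst (tgtOf π) (p i) (p (i + 1))) :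
    fcoord (vt Prod.fst (tgtOf π) (p m)) = ((wordOf p m).map (tog R)).prod *
      fcoord (vt Prod.fst (tgtOf π) ((p 0).1, !(p 0).2)) := by
  induction m with
  | zero =>
    simp only [wordOf, List.map_cons, List.map_nil, List.prod_cons, List.prod_nil, mul_one]
    exact fcoord_vt π (p 0)
  | succ m ih =>
    have ih' := ih fun i hi => h i (by omega)
    obtain ⟨h1, h2, h3⟩ := h m (by omega)
    rw [fcoord_vt, h1, Bool.not_not, h3, ih']
    simp [wordOf, mul_assoc]

theorem walk_not_closed {D R n : ℕ} (π : Choice D R n) (m : ℕ) (hm : m + 1 ≤ R)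
    (p : ℕ → (Vx D R n × Fin D) × Bool)
    (h : ∀ i < m, Follow Prod.fst (tgtOf π) (p i) (p (i + 1))) :
    vt Prod.fst (tgtOf π) (p m) ≠ vt Prod.fst (tgtOf π) ((p 0).1, !(p 0).2) := by
  intro heq
  have h1 := wordOf_prod π p m h
  rw [heq] at h1
  have h2 : ((wordOf p m).map (tog R)).prod = 1 := by
    have := h1.symm
    rwa [mul_eq_right] at this
  refine prod_tog_ne_one (wordOf p m) (wordOf_chain π p m h) ?_ ?_ h2
  · rw [wordOf_length]; exact hm
  · intro h3
    have := wordOf_length p m
    rw [h3] at this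
    simp at this

section count

variable {D R n : ℕ}

/-- choices for which all edges of `F` end in `S` -/
noncomputable def landing (S : Finset (Vx D R n ⊕ Vx D R n)) (F : Finset (Vx D R n × Fin D)) :
    Finset (Choice D R n) := by
  classical
  exact univ.filter fun π => ∀ e ∈ F, Sum.inr (tgtOf π e) ∈ S

/-- The number of choices for which all edges of `F` end in `S`. -/
theorem card_landing (hn : 1 ≤ n) (S : Finset (Vx D R n ⊕ Vx D R n))
    (F : Finset (Vx D R n × Fin D)) :
    ((landing S F).card : ℝ) ≤ ((S.card : ℝ) / n) ^ F.card * Fintype.card (Choice D R n) := by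
  classical
  let I : Equiv.Perm (Wd D R) × Fin D → Finset (Fin n) := fun q =>
    univ.filter fun i => ((q.1, i), q.2) ∈ F
  let T : Equiv.Perm (Wd D R) × Fin D → Finset (Fin n) := fun q =>
    univ.filter fun i => Sum.inr (tog R q.2 * q.1, i) ∈ S
  have h1 : landing S F = Fintype.piFinset fun q => intoSet (I q) (T q) := by
    ext π
    simp only [landing, mem_filter, mem_univ, true_and, Fintype.mem_piFinset, mem_intoSet, I, T]
    constructor
    · intro h q i hi
      exact h _ hi
    · rintro h ⟨⟨g, i⟩, j⟩ he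
      exact h (g, j) i he
  have hTS : ∀ q, (T q).card ≤ S.card := by
    intro q
    refine card_le_card_of_injOn (fun i => Sum.inr (tog R q.2 * q.1, i)) ?_ ?_
    · intro i hi
      simpa [T] using hi
    · intro i _ i' _ h
      simpa using h
  have hI : ∑ q, (I q).card = F.card := by
    have h2 : F = (univ : Finset (Equiv.Perm (Wd D R) × Fin D)).biUnion fun q =>
        (I q).image fun i => ((q.1, i), q.2) := by
      ext ⟨⟨g, i⟩, j⟩
      simp [I]
    conv_rhs => rw [h2]
    rw [card_biUnion]
    · refine sum_congr rfl fun q _ => ?_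
      rw [card_image_of_injective]
      intro i i' h
      simpa using h
    · intro q _ q' _ hqq
      rw [Function.onFun, disjoint_left]
      intro e he he'
      rw [mem_image] at he he'
      obtain ⟨i, _, rfl⟩ := he
      obtain ⟨i', _, h⟩ := he'
      apply hqq
      simp only [Prod.mk.injEq] at h
      exact Prod.ext h.1.1.symm h.2.symm
  have hn' : (0 : ℝ) < n := by exact_mod_cast hn
  have h3 : ∀ q, ((intoSet (I q) (T q)).card : ℝ) ≤
      ((S.card : ℝ) / n) ^ (I q).card * (n.factorial : ℝ) := by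
    intro q
    have h4 := card_intoSet (I q) (T q)
    rw [Fintype.card_fin] at h4
    have h5 : ((intoSet (I q) (T q)).card : ℝ) * (n : ℝ) ^ (I q).card ≤
        (S.card : ℝ) ^ (I q).card * n.factorial := by
      have h6 : ((intoSet (I q) (T q)).card : ℝ) * (n : ℝ) ^ (I q).card ≤
        ((T q).card : ℝ) ^ (I q).card * n.factorial := by exact_mod_cast h4
      refine h6.trans (mul_le_mul_of_nonneg_right ?_ (by positivity))
      exact pow_le_pow_left₀ (by positivity) (by exact_mod_cast hTS q) _
    rw [div_pow, div_mul_eq_mul_div, le_div_iff₀ (by positivity)]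
    exact h5
  calc ((landing S F).card : ℝ) = ∏ q, ((intoSet (I q) (T q)).card : ℝ) := by
        rw [h1, Fintype.card_piFinset]; push_cast; rfl
    _ ≤ ∏ q, (((S.card : ℝ) / n) ^ (I q).card * (n.factorial : ℝ)) :=
        prod_le_prod (fun _ _ => by positivity) fun q _ => h3 q
    _ = _ := by
        rw [prod_mul_distrib, prod_pow_eq_pow_sum, hI, prod_const]
        congr 1
        simp [Fintype.card_perm, Fintype.card_pi]

theorem pow_le_factorial (t : ℕ) : (t : ℝ) ^ t ≤ 3 ^ t * t.factorial := by
  have h1 : (t : ℝ) ^ t / t.factorial ≤ Real.exp t := Real.pow_div_factorial_le_exp _ (by positivity) t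
  have h2 : Real.exp t ≤ 3 ^ t := by
    rw [show (t : ℝ) = t * 1 by ring, Real.exp_nat_mul]
    refine pow_le_pow_left₀ (Real.exp_pos 1).le ?_ t
    have := Real.exp_one_lt_d9
    linarith
  rw [div_le_iff₀ (by positivity)] at h1
  exact h1.trans (mul_le_mul_of_nonneg_right h2 (by positivity))

theorem choose_le_real (N t : ℕ) (ht : 1 ≤ t) : (N.choose t : ℝ) ≤ (3 * N / t : ℝ) ^ t := by
  have h1 : (N.choose t : ℝ) ≤ (N : ℝ) ^ t / t.factorial := Nat.choose_le_pow_div t N
  refine h1.trans ?_
  rw [div_pow, mul_pow, div_le_div_iff₀ (by positivity) (by positivity)]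
  have h2 := pow_le_factorial t
  calc (N : ℝ) ^ t * (t : ℝ) ^ t ≤ (N : ℝ) ^ t * (3 ^ t * t.factorial) :=
        mul_le_mul_of_nonneg_left h2 (by positivity)
    _ = _ := by ring

/-- the main numerical estimate -/
theorem numeric (C K t f c : ℕ) (hC : 1 ≤ C) (hK : 1 ≤ K) (hn : 1 ≤ n) (ht : 1 ≤ t)
    (hc : c = (24 * C * 2 ^ D) ^ K) (hct : c * t ≤ n) (hf : (K + 1) * t < K * f) :
    ((2 * C * n).choose t : ℝ) * 2 ^ (t * D) * ((t : ℝ) / n) ^ f ≤ (1 / 4) ^ t := by
  have hn' : (0 : ℝ) < n := by exact_mod_cast hn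
  have ht' : (0 : ℝ) < t := by exact_mod_cast ht
  have htf : t ≤ f := by
    by_contra h
    push Not at h
    have : K * f ≤ K * t := Nat.mul_le_mul_left _ h.le
    nlinarith
  have hKf : t ≤ K * (f - t) := by
    have : K * (f - t) = K * f - K * t := Nat.mul_sub K f t
    have h2 : (K + 1) * t = K * t + t := by ring
    omega
  set B : ℝ := 24 * C * 2 ^ D with hB
  have hB1 : 1 ≤ B := by
    have : (1 : ℝ) ≤ C := by exact_mod_cast hC
    have h2 : (1 : ℝ) ≤ 2 ^ D := one_le_pow₀ (by norm_num)
    rw [hB]; nlinarith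
  have hcB : (c : ℝ) = B ^ K := by rw [hc, hB]; push_cast; ring
  have hcpos : (0 : ℝ) < c := by rw [hcB]; positivity
  have htn : (t : ℝ) / n ≤ 1 / c := by
    rw [div_le_div_iff₀ hn' hcpos]
    have : ((c * t : ℕ) : ℝ) ≤ n := by exact_mod_cast hct
    push_cast at this
    linarith
  have h1 : ((2 * C * n).choose t : ℝ) ≤ (6 * C * n / t : ℝ) ^ t := by
    have := choose_le_real (2 * C * n) t ht
    refine this.trans (le_of_eq ?_)
    push_cast; congr 1; ring
  have h2 : ((t : ℝ) / n) ^ f = ((t : ℝ) / n) ^ t * ((t : ℝ) / n) ^ (f - t) := by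
    rw [← pow_add]; congr 1; omega
  have h3 : ((t : ℝ) / n) ^ (f - t) ≤ (1 / B) ^ t := by
    calc ((t : ℝ) / n) ^ (f - t) ≤ (1 / c : ℝ) ^ (f - t) :=
          pow_le_pow_left₀ (by positivity) htn _
      _ = (1 / B) ^ (K * (f - t)) := by
          rw [hcB, pow_mul]
          congr 1
          rw [div_pow, one_pow]
      _ ≤ (1 / B) ^ t := by
          refine pow_le_pow_of_le_one (by positivity) ?_ hKf
          rw [div_le_one (by linarith)]; exact hB1
  calc ((2 * C * n).choose t : ℝ) * 2 ^ (t * D) * ((t : ℝ) / n) ^ f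
      ≤ (6 * C * n / t : ℝ) ^ t * 2 ^ (t * D) * (((t : ℝ) / n) ^ t * (1 / B) ^ t) := by
        rw [h2]
        gcongr
    _ = ((6 * C * n / t : ℝ) * 2 ^ D * (((t : ℝ) / n) * (1 / B))) ^ t := by
        rw [mul_pow, mul_pow, mul_pow, ← pow_mul, mul_comm D t]
    _ = (1 / 4) ^ t := by
        congr 1
        rw [hB]
        have hC' : (C : ℝ) ≠ 0 := by
          have : (1 : ℝ) ≤ C := by exact_mod_cast hC
          linarith
        field_simp
        norm_num

end count

/-- **Sparse graphs of large girth.** -/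
theorem exists_sparse (D R K : ℕ) (hD : 1 ≤ D) (hK : 1 ≤ K) : ∃ C c : ℕ, 1 ≤ C ∧ 1 ≤ c ∧
    ∀ n, 1 ≤ n → ∃ (W : Type) (_ : Fintype W) (_ : DecidableEq W) (tau : Fin D → W → W),
      (∀ j, Function.Injective (tau j)) ∧ Fintype.card W = C * n ∧
      (∀ m, m + 1 ≤ R → ∀ p : ℕ → (W × Fin D) × Bool,
        (∀ i < m, Follow Prod.fst (fun e => tau e.2 e.1) (p i) (p (i + 1))) →
        vt Prod.fst (fun e => tau e.2 e.1) (p m) ≠
          vt Prod.fst (fun e => tau e.2 e.1) ((p 0).1, !(p 0).2)) ∧
      (∀ F : Finset (W × Fin D), c * (verts Prod.fst (fun e => tau e.2 e.1) F).card ≤ n →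
        K * F.card ≤ (K + 1) * (verts Prod.fst (fun e => tau e.2 e.1) F).card) := by
  classical
  set C : ℕ := Fintype.card (Equiv.Perm (Wd D R)) with hC
  have hC1 : 1 ≤ C := Fintype.card_pos
  refine ⟨C, (24 * C * 2 ^ D) ^ K, hC1, Nat.one_le_pow _ _ (by positivity), fun n hn => ?_⟩
  set c : ℕ := (24 * C * 2 ^ D) ^ K with hc
  -- the bad choices
  let bad : Finset (Choice D R n) := univ.filter fun π => ∃ F : Finset (Vx D R n × Fin D),
    c * (verts Prod.fst (tgtOf π) F).card ≤ n ∧
      (K + 1) * (verts Prod.fst (tgtOf π) F).card < K * F.card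
  let fN : ℕ → ℕ := fun t => (K + 1) * t / K + 1
  have hfN : ∀ t, (K + 1) * t < K * fN t := by
    intro t
    have := Nat.lt_mul_div_succ ((K + 1) * t) (show 0 < K by omega)
    exact this
  have hfNle : ∀ t f, (K + 1) * t < K * f → fN t ≤ f := by
    intro t f h
    have : (K + 1) * t / K < f := by
      rw [Nat.div_lt_iff_lt_mul (by omega)]
      rw [mul_comm f K]; exact h
    exact this
  let slots : Finset (Vx D R n ⊕ Vx D R n) → Finset (Vx D R n × Fin D) := fun S =>
    univ.filter fun e => Sum.inl e.1 ∈ S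
  have hslots : ∀ S, (slots S).card ≤ S.card * D := by
    intro S
    have h1 : slots S ⊆ (univ.filter fun w : Vx D R n => Sum.inl w ∈ S) ×ˢ univ := by
      intro e he
      simp only [slots, mem_filter, mem_univ, true_and] at he
      simp [he]
    refine (card_le_card h1).trans ?_
    rw [card_product, card_univ, Fintype.card_fin]
    refine Nat.mul_le_mul_right _ ?_
    refine card_le_card_of_injOn (fun w => Sum.inl w) ?_ ?_
    · intro w hw
      simpa using hw
    · intro w _ w' _ h
      simpa using h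
  have hsub : bad ⊆ (Icc 1 (n / c)).biUnion fun t => (powersetCard t univ).biUnion fun S =>
      (powersetCard (fN t) (slots S)).biUnion fun F => landing S F := by
    intro π hπ
    simp only [bad, mem_filter, mem_univ, true_and] at hπ
    obtain ⟨F, h1, h2⟩ := hπ
    set S := verts Prod.fst (tgtOf π) F with hS
    have hcpos : 0 < c := by positivity
    have hSpos : 1 ≤ S.card := by
      by_contra h
      have hS0 : S = ∅ := by
        rw [← card_eq_zero]; omega
      have hF : F.Nonempty := by
        rw [← card_pos]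
        by_contra h0
        have : F.card = 0 := by omega
        rw [this] at h2; omega
      obtain ⟨e, he⟩ := hF
      have : vt Prod.fst (tgtOf π) (e, false) ∈ S := by
        rw [hS]
        exact mem_image_of_mem _ (mem_darts.2 he)
      rw [hS0] at this
      simp at this
    obtain ⟨F', hF'F, hF'c⟩ := exists_subset_card_eq (hfNle _ _ h2)
    simp only [mem_biUnion, mem_Icc, mem_powersetCard]
    refine ⟨S.card, ⟨hSpos, ?_⟩, S, ⟨subset_univ _, rfl⟩, F', ⟨?_, hF'c⟩, ?_⟩
    · rw [Nat.le_div_iff_mul_le hcpos, mul_comm]; exact h1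
    · intro e he
      simp only [slots, mem_filter, mem_univ, true_and]
      have : vt Prod.fst (tgtOf π) (e, false) ∈ S := by
        rw [hS]; exact mem_image_of_mem _ (mem_darts.2 (hF'F he))
      simpa [vt] using this
    · simp only [landing, mem_filter, mem_univ, true_and]
      intro e he
      have : vt Prod.fst (tgtOf π) (e, true) ∈ S := by
        rw [hS]; exact mem_image_of_mem _ (mem_darts.2 (hF'F he))
      simpa [vt] using this
  -- counting
  have hcardU : Fintype.card (Vx D R n ⊕ Vx D R n) = 2 * C * n := by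
    rw [Fintype.card_sum, Fintype.card_prod, Fintype.card_fin]; ring
  have hbad : (bad.card : ℝ) ≤ ∑ t ∈ Icc 1 (n / c),
      ((1 / 4 : ℝ) ^ t * Fintype.card (Choice D R n)) := by
    have h0 : (bad.card : ℝ) ≤ ∑ t ∈ Icc 1 (n / c),
        (((powersetCard t (univ : Finset (Vx D R n ⊕ Vx D R n))).biUnion fun S =>
          (powersetCard (fN t) (slots S)).biUnion fun F => landing S F).card : ℝ) := by
      exact_mod_cast (card_le_card hsub).trans card_biUnion_le
    refine h0.trans (sum_le_sum fun t ht => ?_)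
    rw [mem_Icc] at ht
    have hcpos : 0 < c := by positivity
    have hct : c * t ≤ n := by
      have := (Nat.le_div_iff_mul_le hcpos).1 ht.2
      rw [mul_comm]; exact this
    have h1 : (((powersetCard t (univ : Finset (Vx D R n ⊕ Vx D R n))).biUnion fun S =>
          (powersetCard (fN t) (slots S)).biUnion fun F => landing S F).card : ℝ) ≤
        ∑ S ∈ powersetCard t (univ : Finset (Vx D R n ⊕ Vx D R n)),
          (2 : ℝ) ^ (t * D) * (((t : ℝ) / n) ^ (fN t) * Fintype.card (Choice D R n)) := by
      have h2 : (((powersetCard t (univ : Finset (Vx D R n ⊕ Vx D R n))).biUnion fun S =>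
          (powersetCard (fN t) (slots S)).biUnion fun F => landing S F).card : ℝ) ≤
        ∑ S ∈ powersetCard t (univ : Finset (Vx D R n ⊕ Vx D R n)),
          (((powersetCard (fN t) (slots S)).biUnion fun F => landing S F).card : ℝ) := by
        exact_mod_cast card_biUnion_le
      refine h2.trans (sum_le_sum fun S hS => ?_)
      rw [mem_powersetCard] at hS
      have h3 : (((powersetCard (fN t) (slots S)).biUnion fun F => landing S F).card : ℝ) ≤
          ∑ F ∈ powersetCard (fN t) (slots S), ((landing S F).card : ℝ) := by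
        exact_mod_cast card_biUnion_le
      refine h3.trans ?_
      calc ∑ F ∈ powersetCard (fN t) (slots S), ((landing S F).card : ℝ)
          ≤ ∑ F ∈ powersetCard (fN t) (slots S),
            (((t : ℝ) / n) ^ (fN t) * Fintype.card (Choice D R n)) := by
            refine sum_le_sum fun F hF => ?_
            rw [mem_powersetCard] at hF
            have := card_landing hn S F
            rw [hS.2, hF.2] at this
            exact this
        _ = ((powersetCard (fN t) (slots S)).card : ℝ) *
            (((t : ℝ) / n) ^ (fN t) * Fintype.card (Choice D R n)) := by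
            rw [sum_const, nsmul_eq_mul]
        _ ≤ (2 : ℝ) ^ (t * D) * (((t : ℝ) / n) ^ (fN t) * Fintype.card (Choice D R n)) := by
            refine mul_le_mul_of_nonneg_right ?_ (by positivity)
            have h4 : (powersetCard (fN t) (slots S)).card ≤ 2 ^ (t * D) := by
              rw [card_powersetCard]
              refine (Nat.choose_le_two_pow _ _).trans (Nat.pow_le_pow_right (by norm_num) ?_)
              have := hslots S
              rw [hS.2] at this
              exact this
            exact_mod_cast h4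
    refine h1.trans ?_
    rw [sum_const, card_powersetCard, card_univ, hcardU, nsmul_eq_mul]
    have h5 := numeric (D := D) (n := n) C K t (fN t) c hC1 hK hn ht.1 hc hct (hfN t)
    calc ((2 * C * n).choose t : ℝ) * ((2 : ℝ) ^ (t * D) *
          (((t : ℝ) / n) ^ (fN t) * Fintype.card (Choice D R n)))
        = (((2 * C * n).choose t : ℝ) * 2 ^ (t * D) * ((t : ℝ) / n) ^ (fN t)) *
          Fintype.card (Choice D R n) := by ring
      _ ≤ _ := mul_le_mul_of_nonneg_right h5 (by positivity)
  have hlt : bad.card < Fintype.card (Choice D R n) := by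
    have hpos : (0 : ℝ) < Fintype.card (Choice D R n) := by
      have : 0 < Fintype.card (Choice D R n) := Fintype.card_pos
      exact_mod_cast this
    have h1 : ∑ t ∈ Icc 1 (n / c), (1 / 4 : ℝ) ^ t < 1 := by
      have h2 : ∑ t ∈ Icc 1 (n / c), (1 / 4 : ℝ) ^ t ≤ ∑' t : ℕ, (1 / 4 : ℝ) ^ (t + 1) := by
        have hs : Summable fun t : ℕ => (1 / 4 : ℝ) ^ (t + 1) := by
          have := summable_geometric_of_lt_one (r := (1 / 4 : ℝ)) (by norm_num) (by norm_num)
          simpa [pow_succ] using this.mul_right (1 / 4 : ℝ)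
        have h3 : ∑ t ∈ Icc 1 (n / c), (1 / 4 : ℝ) ^ t =
            ∑ t ∈ range (n / c), (1 / 4 : ℝ) ^ (t + 1) := by
          rw [range_eq_Ico, sum_Ico_add' (fun t : ℕ => (1 / 4 : ℝ) ^ t) 0 (n / c) 1]
          rfl
        rw [h3]
        exact hs.sum_le_tsum _ (fun _ _ => by positivity)
      have h4 : ∑' t : ℕ, (1 / 4 : ℝ) ^ (t + 1) = 1 / 3 := by
        simp_rw [pow_succ]
        rw [tsum_mul_right, tsum_geometric_of_lt_one (by norm_num) (by norm_num)]
        norm_num
      linarith
    have h2 : (bad.card : ℝ) < Fintype.card (Choice D R n) := by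
      refine hbad.trans_lt ?_
      rw [← sum_mul]
      nlinarith
    exact_mod_cast h2
  obtain ⟨π, hπ⟩ : ∃ π, π ∉ bad := by
    by_contra h
    push Not at h
    have : bad = univ := eq_univ_iff_forall.2 h
    rw [this, card_univ] at hlt
    exact lt_irrefl _ hlt
  refine ⟨Vx D R n, inferInstance, inferInstance, tauOf π, tauOf_injective π, ?_,
    fun m hm p hp => walk_not_closed π m hm p hp, fun F hF => ?_⟩
  · rw [Fintype.card_prod, Fintype.card_fin]
  · simp only [bad, mem_filter, mem_univ, true_and, not_exists, not_and, not_lt] at hπ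
    exact hπ F hF

end Pool.Agent.MP_ec946a
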