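import Pool.Agent.Lib.MP_ec946a_Games.PermCount

set_option autoImplicit false

namespace Pool.Agent.MP_ec946a

open Finset

/-- A random choice of relabelings makes every labeling satisfy few edges. -/
theorem exists_sigma {r : ℕ} {Λ E : Type} [Fintype Λ] [Fintype E] [DecidableEq E]
    (x : Λ → E → Fin r) (y : Λ → E → ℕ) (s : ℕ)
    (hs : Fintype.card Λ * (Fintype.card E).choose s < r ^ s) :
    ∃ σ : E → Equiv.Perm (Fin r), ∀ l : Λ,
      (univ.filter fun e => (σ e (x l e)).val = y l e).card < s := by
  classical
  set N := r.factorial with hN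
  let A : Λ × Finset E → Finset (E → Equiv.Perm (Fin r)) := fun p =>
    Fintype.piFinset fun e => if e ∈ p.2 then
      univ.filter (fun σ : Equiv.Perm (Fin r) => (σ (x p.1 e)).val = y p.1 e) else univ
  have hA : ∀ p, (A p).card * r ^ p.2.card ≤ N ^ (Fintype.card E) := by
    intro p
    have h1 : r ^ p.2.card = ∏ e : E, (if e ∈ p.2 then r else 1) := by
      rw [prod_ite, prod_const_one, mul_one, prod_const]
      congr 1
      congr 1
      ext e; simp
    have h2 : N ^ (Fintype.card E) = ∏ _e : E, N := by rw [prod_const, card_univ]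
    rw [h1, h2, Fintype.card_piFinset, ← prod_mul_distrib]
    apply prod_le_prod'
    intro e _
    split_ifs with he
    · by_cases hy : y p.1 e < r
      · have h3 := card_intoSet ({x p.1 e} : Finset (Fin r)) {⟨y p.1 e, hy⟩}
        rw [card_singleton, card_singleton, Fintype.card_fin, pow_one, one_pow, one_mul] at h3
        refine le_trans (Nat.mul_le_mul_right _ (card_le_card ?_)) h3
        intro σ hσ
        rw [mem_filter] at hσ
        rw [mem_intoSet]
        intro i hi
        rw [mem_singleton] at hi ⊢
        subst hi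
        exact Fin.ext hσ.2
      · have h3 : (univ.filter fun σ : Equiv.Perm (Fin r) => (σ (x p.1 e)).val = y p.1 e) = ∅ := by
          rw [filter_eq_empty_iff]
          intro σ _ h
          have := (σ (x p.1 e)).isLt
          omega
        rw [h3, card_empty, zero_mul]
        exact Nat.zero_le _
    · rw [mul_one, card_univ, Fintype.card_perm, Fintype.card_fin]
  set Bad : Finset (E → Equiv.Perm (Fin r)) := univ.filter fun σ => ∃ l : Λ,
    s ≤ (univ.filter fun e => (σ e (x l e)).val = y l e).card with hBad
  set P : Finset (Λ × Finset E) := univ ×ˢ (powersetCard s (univ : Finset E)) with hP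
  have hsub : Bad ⊆ P.biUnion A := by
    intro σ hσ
    rw [hBad, mem_filter] at hσ
    obtain ⟨_, l, hl⟩ := hσ
    obtain ⟨S, hS, hScard⟩ := exists_subset_card_eq hl
    rw [mem_biUnion]
    refine ⟨(l, S), ?_, ?_⟩
    · rw [hP, mem_product]
      exact ⟨mem_univ _, mem_powersetCard.2 ⟨subset_univ _, hScard⟩⟩
    · simp only [A]
      rw [Fintype.mem_piFinset]
      intro e
      split_ifs with he
      · exact mem_filter.2 ⟨mem_univ _, (mem_filter.1 (hS he)).2⟩
      · exact mem_univ _
  have hcard : Bad.card * r ^ s < N ^ (Fintype.card E) * r ^ s := by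
    calc Bad.card * r ^ s ≤ (P.biUnion A).card * r ^ s := Nat.mul_le_mul_right _ (card_le_card hsub)
      _ ≤ (∑ p ∈ P, (A p).card) * r ^ s := Nat.mul_le_mul_right _ card_biUnion_le
      _ = ∑ p ∈ P, (A p).card * r ^ s := by rw [sum_mul]
      _ = ∑ p ∈ P, (A p).card * r ^ p.2.card := by
          apply sum_congr rfl
          intro p hp
          rw [hP, mem_product, mem_powersetCard] at hp
          rw [hp.2.2]
      _ ≤ ∑ _p ∈ P, N ^ (Fintype.card E) := sum_le_sum fun p _ => hA p
      _ = P.card * N ^ (Fintype.card E) := by rw [sum_const, smul_eq_mul]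
      _ = (Fintype.card Λ * (Fintype.card E).choose s) * N ^ (Fintype.card E) := by
          rw [hP, card_product, card_univ, card_powersetCard, card_univ]
      _ < r ^ s * N ^ (Fintype.card E) := by
          apply Nat.mul_lt_mul_of_pos_right hs
          exact pow_pos (Nat.factorial_pos r) _
      _ = N ^ (Fintype.card E) * r ^ s := mul_comm _ _
  have hlt : Bad.card < (univ : Finset (E → Equiv.Perm (Fin r))).card := by
    have h5 := Nat.lt_of_mul_lt_mul_right hcard
    rw [card_univ, Fintype.card_fun, Fintype.card_perm, Fintype.card_fin]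
    exact h5
  obtain ⟨σ, _, hσ⟩ := exists_mem_notMem_of_card_lt_card hlt
  refine ⟨σ, fun l => ?_⟩
  by_contra h
  push Not at h
  exact hσ (mem_filter.2 ⟨mem_univ _, l, h⟩)

end Pool.Agent.MP_ec946a
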