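import Pool.Agent.Lib.MP_ec946a_Games.Family
import Pool.Agent.Lib.MP_ec946a_Games.Value
import Pool.Agent.Lib.MP_ec946a_Games.Gadget
import Pool.Agent.Lib.MP_ec946a_Games.Graph

set_option autoImplicit false

namespace Pool.Agent.MP_ec946a

open Finset

section

variable {r D : ℕ} {W : Type} [Fintype W] [Nonempty W]

/-- the game -/
def mkGame (hD : 1 ≤ D) (φ : Fin D → Fin (2 * r) → Fin r)
    (hφ : ∀ j b, (univ.filter fun a => φ j a = b).card = 2)
    (τ : Fin D → W → W) (σ : W × Fin D → Equiv.Perm (Fin r)) : Game (2 * r) where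
  U := W
  V := W
  E := W × Fin D
  neE := ⟨(Classical.arbitrary W, ⟨0, hD⟩)⟩
  src := Prod.fst
  tgt := fun e => τ e.2 e.1
  proj := fun e a => Fin.castLE (by omega) (σ e (φ e.2 a))
  two_to_one := by
    intro e b
    by_cases hb : b.val < r
    · rw [Nat.card_eq_fintype_card, Fintype.card_subtype]
      refine le_trans (card_le_card ?_) (hφ e.2 ((σ e).symm ⟨b.val, hb⟩)).le
      intro a ha
      rw [mem_filter] at ha ⊢
      refine ⟨mem_univ _, ?_⟩
      rw [Equiv.eq_symm_apply]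
      apply Fin.ext
      have := congrArg Fin.val ha.2
      simpa using this
    · rw [Nat.card_eq_fintype_card, Fintype.card_subtype]
      have : (univ.filter fun a => Fin.castLE (by omega : r ≤ 2 * r) (σ e (φ e.2 a)) = b) = ∅ := by
        rw [filter_eq_empty_iff]
        intro a _ ha
        have h1 := congrArg Fin.val ha
        have h2 := (σ e (φ e.2 a)).isLt
        simp only [Fin.val_castLE] at h1
        omega
      rw [this]
      simp

theorem card_satisfied (hD : 1 ≤ D) (φ : Fin D → Fin (2 * r) → Fin r)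
    (hφ : ∀ j b, (univ.filter fun a => φ j a = b).card = 2)
    (τ : Fin D → W → W) (σ : W × Fin D → Equiv.Perm (Fin r)) (LU LV : W → Fin (2 * r)) :
    Nat.card ((mkGame hD φ hφ τ σ).satisfied LU LV) =
      (univ.filter fun e : W × Fin D =>
          (σ e (φ e.2 (LU e.1))).val = (LV (τ e.2 e.1)).val).card := by
  have h1 : (mkGame hD φ hφ τ σ).satisfied LU LV =
      {e : W × Fin D | (σ e (φ e.2 (LU e.1))).val = (LV (τ e.2 e.1)).val} := by
    apply Set.ext
    intro e
    exact Fin.ext_iff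
  have h2 : ((univ.filter fun e : W × Fin D =>
      (σ e (φ e.2 (LU e.1))).val = (LV (τ e.2 e.1)).val : Finset (W × Fin D)) : Set (W × Fin D)) =
      {e : W × Fin D | (σ e (φ e.2 (LU e.1))).val = (LV (τ e.2 e.1)).val} := by
    apply Set.ext
    intro e
    simp
  rw [Nat.card_coe_set_eq, ← Set.ncard_coe_finset, h2]
  exact congrArg Set.ncard h1

end

/-- The numerical estimate of the union bound. -/
theorem numeric_value (δ : ℝ) (w D r : ℕ) (hδ : 0 < δ) (hD : 1 ≤ D) (hw : 1 ≤ w)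
    (h1 : 3 * Real.exp 1 ≤ δ * r) (h2 : 2 * Real.log (2 * r) < δ * D) :
    ((2 * r) ^ w * (2 * r) ^ w) * (w * D).choose ⌈δ * ((w * D : ℕ) : ℝ)⌉₊ <
      r ^ ⌈δ * ((w * D : ℕ) : ℝ)⌉₊ := by
  set m : ℕ := w * D with hm
  set s := ⌈δ * (m : ℝ)⌉₊ with hs
  have hm1 : 1 ≤ m := Nat.mul_pos hw hD
  have hmR : (0 : ℝ) < m := by exact_mod_cast hm1
  have hs1 : 1 ≤ s := Nat.one_le_iff_ne_zero.2 (Nat.ceil_pos.2 (mul_pos hδ hmR)).ne'
  have hsm : δ * (m : ℝ) ≤ s := Nat.le_ceil _
  have hsR : (0 : ℝ) < s := by exact_mod_cast hs1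
  have hr : (0 : ℝ) < r := by
    have : 0 < δ * r := lt_of_lt_of_le (by positivity) h1
    exact (pos_iff_pos_of_mul_pos this).1 hδ
  have hc : ((m.choose s : ℕ) : ℝ) ≤ (3 / δ) ^ s := by
    refine (choose_le_real m s hs1).trans ?_
    apply pow_le_pow_left₀ (by positivity)
    rw [div_le_div_iff₀ hsR hδ]
    nlinarith
  have hl : ((2 * r : ℝ) ^ w * (2 * r : ℝ) ^ w) < Real.exp s := by
    have h3 : (2 * r : ℝ) ^ w * (2 * r : ℝ) ^ w = Real.exp (w * (2 * Real.log (2 * r))) := by
      rw [← pow_add, ← two_mul, show (w : ℝ) * (2 * Real.log (2 * r)) =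
        ((2 * w : ℕ) : ℝ) * Real.log (2 * r) by push_cast; ring, Real.exp_nat_mul,
        Real.exp_log (by positivity)]
    rw [h3]
    apply Real.exp_lt_exp.2
    have hwR : (0 : ℝ) < w := by exact_mod_cast hw
    calc (w : ℝ) * (2 * Real.log (2 * r)) < w * (δ * D) := mul_lt_mul_of_pos_left h2 hwR
      _ = δ * (m : ℝ) := by rw [hm]; push_cast; ring
      _ ≤ s := hsm
  have key : ((2 * r : ℝ) ^ w * (2 * r : ℝ) ^ w) * ((m.choose s : ℕ) : ℝ) < (r : ℝ) ^ s := by
    calc ((2 * r : ℝ) ^ w * (2 * r : ℝ) ^ w) * ((m.choose s : ℕ) : ℝ)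
        ≤ ((2 * r : ℝ) ^ w * (2 * r : ℝ) ^ w) * (3 / δ) ^ s :=
          mul_le_mul_of_nonneg_left hc (by positivity)
      _ < Real.exp s * (3 / δ) ^ s := mul_lt_mul_of_pos_right hl (by positivity)
      _ = (3 * Real.exp 1 / δ) ^ s := by
          rw [show (s : ℝ) = s * 1 by ring, Real.exp_nat_mul, ← mul_pow]
          congr 1
          ring
      _ ≤ (r : ℝ) ^ s := by
          apply pow_le_pow_left₀ (by positivity)
          rw [div_le_iff₀ hδ]
          linarith
  exact_mod_cast key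

theorem game_of_graph (δ : ℝ) (D r : ℕ) (hδ : 0 < δ) (hD : 1 ≤ D)
    (h1 : 3 * Real.exp 1 ≤ δ * r) (h2 : 2 * Real.log (2 * r) < δ * D) (hr2 : 2 ≤ r)
    (φ : Fin D → Fin (2 * r) → Fin r)
    (hφ : ∀ j b, (univ.filter fun a => φ j a = b).card = 2)
    (hφe : ∀ i j, i ≠ j → ∀ S : Finset (Fin r), S ≠ ∅ → S ≠ univ →
      S.card < ((univ.filter fun a => φ i a ∈ S).image (φ j)).card)
    {W : Type} [Fintype W] [iW : DecidableEq W] [Nonempty W] (τ : Fin D → W → W)
    (hns : NoShort Prod.fst (fun e : W × Fin D => τ e.2 e.1) (2 * r)) :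
    ∃ G : Game (2 * r), Nat.card G.U = Fintype.card W ∧ Nat.card G.V = Fintype.card W ∧
      Nat.card G.E = Fintype.card W * D ∧ G.value ≤ δ ∧
      ∀ k, (∀ F : Finset (W × Fin D), F.card ≤ 2 * r * (4 * (2 * r - 2) * k) →
        6 * (2 * r - 2) * F.card ≤ F.card + 6 * (2 * r - 2) *
          (verts Prod.fst (fun e : W × Fin D => τ e.2 e.1) F).card) → G.KConsistent k := by
  classical
  have hW : 1 ≤ Fintype.card W := Fintype.card_pos
  have hEcard : Fintype.card (W × Fin D) = Fintype.card W * D := by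
    rw [Fintype.card_prod, Fintype.card_fin]
  set s := ⌈δ * (Fintype.card (W × Fin D) : ℝ)⌉₊ with hs
  obtain ⟨σ, hσ⟩ := exists_sigma (r := r) (Λ := (W → Fin (2 * r)) × (W → Fin (2 * r)))
    (E := W × Fin D) (fun l e => φ e.2 (l.1 e.1)) (fun l e => (l.2 (τ e.2 e.1)).val) s
    (by
      rw [Fintype.card_prod, Fintype.card_fun, Fintype.card_fin, hs, hEcard]
      exact numeric_value δ (Fintype.card W) D r hδ hD hW h1 h2)
  set G := mkGame hD φ hφ τ σ with hG
  refine ⟨G, ?_, ?_, ?_, ?_, ?_⟩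
  · exact Nat.card_eq_fintype_card
  · exact Nat.card_eq_fintype_card
  · rw [← hEcard]; exact Nat.card_eq_fintype_card
  · unfold Game.value
    have : Nonempty ((G.U → Fin (2 * r)) × (G.V → Fin (2 * r))) :=
      ⟨(fun _ => ⟨0, by omega⟩, fun _ => ⟨0, by omega⟩)⟩
    apply ciSup_le
    rintro ⟨LU, LV⟩
    have hE : (Nat.card G.E : ℝ) = (Fintype.card (W × Fin D) : ℝ) := by
      rw [show Nat.card G.E = Fintype.card (W × Fin D) from Nat.card_eq_fintype_card]
    have hpos : (0 : ℝ) < (Fintype.card (W × Fin D) : ℝ) := by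
      rw [hEcard]
      have : 0 < Fintype.card W * D := Nat.mul_pos hW hD
      exact_mod_cast this
    rw [hE, div_le_iff₀ hpos]
    have h1 := hσ (LU, LV)
    have h2 := card_satisfied hD φ hφ τ σ LU LV
    show (Nat.card ((mkGame hD φ hφ τ σ).satisfied LU LV) : ℝ) ≤ _
    rw [h2]
    by_contra hcon
    push Not at hcon
    have h3 : s ≤ (univ.filter fun e : W × Fin D =>
          (σ e (φ e.2 (LU e.1))).val = (LV (τ e.2 e.1)).val).card := by
      rw [hs]
      exact Nat.ceil_le.2 hcon.le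
    exact absurd h1 (not_lt.2 h3)
  · intro k hsp
    refine @kconsistent_of r G (fun e a => σ e (φ e.2 a)) hr2 iW iW instDecidableEqProd
      (fun e a => rfl) ?_ ?_ hns k (2 * r - 2) rfl hsp
    · intro e b
      have h1 := hφ e.2 ((σ e).symm b)
      have h2 : (univ.filter fun a => φ e.2 a = (σ e).symm b).Nonempty := by
        rw [← card_pos, h1]; norm_num
      obtain ⟨a, ha⟩ := h2
      rw [mem_filter] at ha
      exact ⟨a, by show σ e (φ e.2 a) = b; rw [ha.2]; simp⟩
    · intro e e' hsrc hne S hS1 hS2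
      have hcol : e.2 ≠ e'.2 := fun h => hne (Prod.ext hsrc h)
      set T := S.map (σ e).symm.toEmbedding with hT
      have hT1 : T ≠ ∅ := by
        rw [hT]; simpa using hS1
      have hTc : T.card = S.card := card_map _
      have hT2 : T ≠ univ := by
        intro h
        apply hS2
        rw [← card_eq_iff_eq_univ, ← hTc, h, card_univ]
      have h1 := hφe e.2 e'.2 hcol T hT1 hT2
      rw [hTc] at h1
      refine lt_of_lt_of_eq h1 ?_
      have h2 : ((univ.filter fun a => σ e (φ e.2 a) ∈ S).image fun a => σ e' (φ e'.2 a)) =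
          (((univ.filter fun a => φ e.2 a ∈ T).image (φ e'.2))).map (σ e').toEmbedding := by
        ext b
        simp only [mem_image, mem_filter, mem_univ, true_and, mem_map, Equiv.coe_toEmbedding, hT]
        constructor
        · rintro ⟨a, ha, rfl⟩
          exact ⟨φ e'.2 a, ⟨a, ⟨σ e (φ e.2 a), ha, by simp⟩, rfl⟩, rfl⟩
        · rintro ⟨_, ⟨a, ⟨c, hc, hca⟩, rfl⟩, rfl⟩
          refine ⟨a, ?_, rfl⟩
          rw [← hca]; simpa using hc
      have h3 : (((univ.filter fun a => φ e.2 a ∈ T).image (φ e'.2)).map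
          (σ e').toEmbedding).card = ((univ.filter fun a => φ e.2 a ∈ T).image (φ e'.2)).card :=
        card_map _
      rw [← h3, ← h2]

end Pool.Agent.MP_ec946a
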