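import Mathlib

set_option autoImplicit false

namespace Pool.Agent.MP_ec946a

open Finset

section fill

variable {U V E A B : Type*} [DecidableEq U] [DecidableEq V] [DecidableEq E]
  [Fintype A] [DecidableEq A] [Fintype B] [DecidableEq B]

/-- Filling a path. -/
theorem fill_path (src : E → U) (tgt : E → V) (π : E → A → B)
    (hsurj : ∀ e b, ∃ a, π e a = b)
    (hexp : ∀ e e', src e = src e' → e ≠ e' → ∀ S : Finset B, S ≠ ∅ → S ≠ univ →
      S.card < ((univ.filter fun a => π e a ∈ S).image (π e')).card)
    (a c : ℕ → E) (uu : ℕ → U) (vv : ℕ → V) (k : ℕ)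
    (h : ∀ i < k, src (a i) = uu i ∧ src (c i) = uu i ∧ a i ≠ c i ∧ tgt (a i) = vv i ∧
      tgt (c i) = vv (i + 1))
    (hu : ∀ i < k, ∀ j < k, uu i = uu j → i = j)
    (hv : ∀ i ≤ k, ∀ j ≤ k, vv i = vv j → i = j)
    (gU : U → A) (gV : V → B) (m : ℕ) (hm : m ≤ k) :
    ∃ S : Finset B, min (Fintype.card B) (m + 1) ≤ S.card ∧ ∀ b ∈ S, ∃ (fU : U → A) (fV : V → B),
      (∀ u, (∀ i < m, u ≠ uu i) → fU u = gU u) ∧
      (∀ v, (∀ i < m, v ≠ vv (i + 1)) → fV v = gV v) ∧
      (∀ i < m, π (a i) (fU (src (a i))) = fV (tgt (a i)) ∧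
        π (c i) (fU (src (c i))) = fV (tgt (c i))) ∧ fV (vv m) = b := by
  induction m with
  | zero =>
    refine ⟨{gV (vv 0)}, by simp, ?_⟩
    intro b hb
    rw [mem_singleton] at hb
    exact ⟨gU, gV, fun _ _ => rfl, fun _ _ => rfl, fun i hi => absurd hi (Nat.not_lt_zero _),
      hb.symm⟩
  | succ m ih =>
    obtain ⟨S, hS, hg⟩ := ih (by omega)
    obtain ⟨h1, h2, h3, h4, h5⟩ := h m (by omega)
    refine ⟨(univ.filter fun x => π (a m) x ∈ S).image (π (c m)), ?_, ?_⟩
    · by_cases hSu : S = univ
      · have : ((univ.filter fun x => π (a m) x ∈ S).image (π (c m))) = univ := by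
          rw [hSu, eq_univ_iff_forall]
          intro b
          obtain ⟨x, hx⟩ := hsurj (c m) b
          exact mem_image.2 ⟨x, by simp, hx⟩
        rw [this, card_univ]
        exact min_le_left _ _
      · by_cases hSe : S = ∅
        · rw [hSe, card_empty] at hS
          have : Fintype.card B = 0 := by
            rcases Nat.le_zero.1 hS with h6
            rcases min_eq_iff.1 h6 with h7 | h7
            · exact h7.1
            · omega
          rw [this]; simp
        · have := hexp (a m) (c m) (h1.trans h2.symm) h3 S hSe hSu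
          have h6 : min (Fintype.card B) (m + 1 + 1) ≤ min (Fintype.card B) (m + 1) + 1 := by
            omega
          omega
    · intro b' hb'
      obtain ⟨x, hx, hxb⟩ := mem_image.1 hb'
      rw [mem_filter] at hx
      obtain ⟨fU, fV, g1, g2, g3, g4⟩ := hg _ hx.2
      have hvne : ∀ i ≤ m, vv i ≠ vv (m + 1) := by
        intro i hi h6
        have := hv i (by omega) (m + 1) hm h6
        omega
      have hune : ∀ i < m, uu i ≠ uu m := by
        intro i hi h6
        have := hu i (by omega) m (by omega) h6
        omega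
      refine ⟨Function.update fU (uu m) x, Function.update fV (vv (m + 1)) b', ?_, ?_, ?_, ?_⟩
      · intro u hu'
        rw [Function.update_of_ne (hu' m (by omega))]
        exact g1 u (fun i hi => hu' i (by omega))
      · intro v hv'
        rw [Function.update_of_ne (hv' m (by omega))]
        exact g2 v (fun i hi => hv' i (by omega))
      · intro i hi
        rcases Nat.lt_succ_iff_lt_or_eq.1 hi with hi | rfl
        · obtain ⟨k1, k2, k3, k4, k5⟩ := h i (by omega)
          obtain ⟨o1, o2⟩ := g3 i hi
          rw [k1, k4] at o1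
          rw [k2, k5] at o2
          rw [k1, k2, k4, k5, Function.update_of_ne (hune i hi),
            Function.update_of_ne (hvne i hi.le), Function.update_of_ne (hvne (i + 1) hi)]
          exact ⟨o1, o2⟩
        · rw [h1, h2, h4, h5, Function.update_self, Function.update_self,
            Function.update_of_ne (hvne i le_rfl), g4]
          exact ⟨rfl, hxb⟩
      · rw [Function.update_self]

end fill

section walks

variable {U V E : Type*} (src : E → U) (tgt : E → V)

/-- the end of the edge on the given side -/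
def vt (d : E × Bool) : U ⊕ V := if d.2 then Sum.inr (tgt d.1) else Sum.inl (src d.1)

/-- `d'` continues `d` without backtracking -/
def Follow (d d' : E × Bool) : Prop :=
  d'.2 = !d.2 ∧ d'.1 ≠ d.1 ∧ vt src tgt (d'.1, d.2) = vt src tgt d

theorem vt_side {e e' : E} {b b' : Bool} (h : vt src tgt (e, b) = vt src tgt (e', b')) :
    b = b' := by
  cases b <;> cases b' <;> simp [vt] at h ⊢

variable [DecidableEq U] [DecidableEq V] [DecidableEq E]

/-- darts of a set of edges -/
def darts (F : Finset E) : Finset (E × Bool) := F ×ˢ univ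

theorem mem_darts {F : Finset E} {d : E × Bool} : d ∈ darts F ↔ d.1 ∈ F := by
  simp [darts]

theorem card_darts (F : Finset E) : (darts F).card = 2 * F.card := by
  simp [darts, card_product, mul_comm]

/-- the degree -/
def deg (F : Finset E) (x : U ⊕ V) : ℕ := ((darts F).filter fun d => vt src tgt d = x).card

/-- the vertices of a set of edges -/
def verts (F : Finset E) : Finset (U ⊕ V) := (darts F).image (vt src tgt)

/-- special vertices -/
def Special (F : Finset E) (M : Finset (U ⊕ V)) (x : U ⊕ V) : Prop :=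
  x ∈ M ∨ deg src tgt F x ≠ 2

open Classical in
/-- the continuation of a dart -/
noncomputable def nxt (F : Finset E) (d : E × Bool) : E × Bool :=
  if h : ∃ d', Follow src tgt d d' ∧ d'.1 ∈ F then h.choose else d

variable {src tgt}

theorem exists_follow {F : Finset E} {d : E × Bool} (hd : d.1 ∈ F)
    (h2 : deg src tgt F (vt src tgt d) = 2) : ∃ d', Follow src tgt d d' ∧ d'.1 ∈ F := by
  unfold deg at h2
  rw [card_eq_two] at h2
  obtain ⟨x, y, hxy, hs⟩ := h2
  have hdm : d ∈ ({x, y} : Finset (E × Bool)) := by
    rw [← hs, mem_filter]; exact ⟨mem_darts.2 hd, rfl⟩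
  have hother : ∃ z, z ≠ d ∧ z ∈ (darts F).filter fun d' => vt src tgt d' = vt src tgt d := by
    rw [hs]
    rcases mem_insert.1 hdm with h | h
    · exact ⟨y, fun h3 => hxy (h ▸ h3.symm), by simp⟩
    · rw [mem_singleton] at h
      exact ⟨x, fun h3 => hxy (h ▸ h3), by simp⟩
  obtain ⟨z, hz, hzm⟩ := hother
  rw [mem_filter, mem_darts] at hzm
  have hside : z.2 = d.2 := vt_side src tgt (e := z.1) (e' := d.1) (b := z.2) (b' := d.2) hzm.2
  refine ⟨(z.1, !d.2), ⟨rfl, ?_, ?_⟩, hzm.1⟩
  · intro h
    exact hz (Prod.ext h hside)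
  · show vt src tgt (z.1, d.2) = vt src tgt d
    rw [← hside]; exact hzm.2

theorem nxt_spec {F : Finset E} {d : E × Bool} (hd : d.1 ∈ F)
    (h2 : deg src tgt F (vt src tgt d) = 2) :
    Follow src tgt d (nxt src tgt F d) ∧ (nxt src tgt F d).1 ∈ F := by
  have h := exists_follow hd h2
  unfold nxt
  rw [dif_pos h]
  exact h.choose_spec

theorem nxt_mem {F : Finset E} {d : E × Bool} (hd : d.1 ∈ F) : (nxt src tgt F d).1 ∈ F := by
  unfold nxt
  split_ifs with h
  · exact h.choose_spec.2
  · exact hd

theorem nxt_inj {F : Finset E} {d₁ d₂ : E × Bool} (hd₁ : d₁.1 ∈ F) (hd₂ : d₂.1 ∈ F)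
    (h₁ : deg src tgt F (vt src tgt d₁) = 2) (h₂ : deg src tgt F (vt src tgt d₂) = 2)
    (h : nxt src tgt F d₁ = nxt src tgt F d₂) : d₁ = d₂ := by
  obtain ⟨⟨a1, a2, a3⟩, a4⟩ := nxt_spec hd₁ h₁
  obtain ⟨⟨b1, b2, b3⟩, b4⟩ := nxt_spec hd₂ h₂
  rw [h] at a1 a2 a3
  set z := nxt src tgt F d₂ with hz
  have hside : d₁.2 = d₂.2 := by
    rw [b1] at a1
    exact (Bool.not_inj a1).symm
  by_contra hne
  have hvt : vt src tgt d₁ = vt src tgt d₂ := by rw [← a3, ← b3, hside]
  have hsub : ({d₁, d₂, (z.1, d₂.2)} : Finset (E × Bool)) ⊆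
      (darts F).filter fun d => vt src tgt d = vt src tgt d₂ := by
    intro x hx
    simp only [mem_insert, mem_singleton] at hx
    rw [mem_filter, mem_darts]
    rcases hx with rfl | rfl | rfl
    · exact ⟨hd₁, hvt⟩
    · exact ⟨hd₂, rfl⟩
    · exact ⟨b4, b3⟩
  have hcard : ({d₁, d₂, (z.1, d₂.2)} : Finset (E × Bool)).card = 3 := by
    rw [card_insert_of_notMem, card_insert_of_notMem, card_singleton]
    · rw [mem_singleton]
      intro h3
      exact b2 (congrArg Prod.fst h3).symm
    · rw [mem_insert, mem_singleton, not_or]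
      refine ⟨hne, ?_⟩
      intro h3
      exact a2 (congrArg Prod.fst h3).symm
  have h4 := card_le_card hsub
  rw [hcard] at h4
  unfold deg at h₂
  omega

open Classical in
/-- Darts whose continuation meets a special vertex soon. -/
theorem card_bad (F : Finset E) (M : Finset (U ⊕ V)) (i : ℕ) :
    ((darts F).filter fun d => ∃ j < i, Special src tgt F M
      (vt src tgt ((nxt src tgt F)^[j] d))).card ≤
    i * ((darts F).filter fun d => Special src tgt F M (vt src tgt d)).card := by
  induction i with
  | zero => simp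
  | succ i ih =>
    set Bi := (darts F).filter fun d => ∃ j < i, Special src tgt F M
      (vt src tgt ((nxt src tgt F)^[j] d)) with hBi
    set B1 := (darts F).filter fun d => Special src tgt F M (vt src tgt d) with hB1
    have hsub : ((darts F).filter fun d => ∃ j < i + 1, Special src tgt F M
        (vt src tgt ((nxt src tgt F)^[j] d))) ⊆
        B1 ∪ ((darts F).filter fun d => ¬ Special src tgt F M (vt src tgt d) ∧
          nxt src tgt F d ∈ Bi) := by
      intro d hd
      rw [mem_filter] at hd
      obtain ⟨hdF, j, hj, hs⟩ := hd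
      rw [mem_union]
      by_cases h : Special src tgt F M (vt src tgt d)
      · left; rw [hB1, mem_filter]; exact ⟨hdF, h⟩
      · right
        rw [mem_filter]
        refine ⟨hdF, h, ?_⟩
        rw [hBi, mem_filter]
        refine ⟨mem_darts.2 (nxt_mem (mem_darts.1 hdF)), ?_⟩
        cases j with
        | zero => exact absurd hs h
        | succ j => exact ⟨j, by omega, by rwa [Function.iterate_succ_apply] at hs⟩
    have h2 : ((darts F).filter fun d => ¬ Special src tgt F M (vt src tgt d) ∧
          nxt src tgt F d ∈ Bi).card ≤ Bi.card := by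
      apply card_le_card_of_injOn (nxt src tgt F)
      · intro d hd
        have hd' := mem_filter.1 (mem_coe.1 hd)
        exact hd'.2.2
      · intro d₁ hd₁ d₂ hd₂ h
        have hd₁' := mem_filter.1 (mem_coe.1 hd₁)
        have hd₂' := mem_filter.1 (mem_coe.1 hd₂)
        have e1 : deg src tgt F (vt src tgt d₁) = 2 := by
          by_contra h3; exact hd₁'.2.1 (Or.inr h3)
        have e2 : deg src tgt F (vt src tgt d₂) = 2 := by
          by_contra h3; exact hd₂'.2.1 (Or.inr h3)
        exact nxt_inj (mem_darts.1 hd₁'.1) (mem_darts.1 hd₂'.1) e1 e2 h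
    calc _ ≤ (B1 ∪ ((darts F).filter fun d => ¬ Special src tgt F M (vt src tgt d) ∧
          nxt src tgt F d ∈ Bi)).card := card_le_card hsub
      _ ≤ B1.card + Bi.card := (card_union_le _ _).trans (Nat.add_le_add_left h2 _)
      _ ≤ B1.card + i * B1.card := Nat.add_le_add_left ih _
      _ = (i + 1) * B1.card := by ring

open Classical in
/-- The number of darts heading to a special vertex. -/
theorem card_special (F : Finset E) (M : Finset (U ⊕ V))
    (hdeg : ∀ x ∈ verts src tgt F, x ∉ M → 2 ≤ deg src tgt F x) :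
    (((darts F).filter fun d => Special src tgt F M (vt src tgt d)).card : ℤ) ≤
      6 * ((F.card : ℤ) - (verts src tgt F).card) + 4 * M.card := by
  have h1 : (((darts F).filter fun d => Special src tgt F M (vt src tgt d)).card : ℤ) =
      ∑ x ∈ verts src tgt F, (if Special src tgt F M x then (deg src tgt F x : ℤ) else 0) := by
    rw [card_eq_sum_card_fiberwise (f := vt src tgt) (t := verts src tgt F)]
    · push_cast
      apply sum_congr rfl
      intro x _
      split_ifs with hs
      · unfold deg
        congr 2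
        ext d
        simp only [mem_filter]
        constructor
        · rintro ⟨⟨h2, _⟩, h4⟩; exact ⟨h2, h4⟩
        · rintro ⟨h2, h4⟩; exact ⟨⟨h2, by rw [h4]; exact hs⟩, h4⟩
      · rw [Nat.cast_eq_zero, card_eq_zero, filter_eq_empty_iff]
        intro d hd h2
        rw [mem_filter] at hd
        exact hs (h2 ▸ hd.2)
    · intro d hd
      have hd' := mem_filter.1 (mem_coe.1 hd)
      exact mem_coe.2 (mem_image_of_mem _ hd'.1)
  have h2 : ((darts F).card : ℤ) = ∑ x ∈ verts src tgt F, (deg src tgt F x : ℤ) := by
    rw [card_eq_sum_card_fiberwise (f := vt src tgt) (t := verts src tgt F)]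
    · push_cast; rfl
    · intro d hd
      exact mem_coe.2 (mem_image_of_mem _ (mem_coe.1 hd))
  rw [h1]
  have h3 : ∀ x ∈ verts src tgt F,
      (if Special src tgt F M x then (deg src tgt F x : ℤ) else 0) ≤
        3 * ((deg src tgt F x : ℤ) - 2) + (if x ∈ M then 4 else 0) := by
    intro x hx
    have hpos : 1 ≤ deg src tgt F x := by
      obtain ⟨d, hd, rfl⟩ := mem_image.1 hx
      exact card_pos.2 ⟨d, mem_filter.2 ⟨hd, rfl⟩⟩
    by_cases hM : x ∈ M
    · have hS : Special src tgt F M x := Or.inl hM
      rw [if_pos hM, if_pos hS]; omega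
    · have := hdeg x hx hM
      rw [if_neg hM]
      by_cases h4 : deg src tgt F x = 2
      · have hS : ¬ Special src tgt F M x := by
          rintro (h5 | h5)
          · exact hM h5
          · exact h5 h4
        rw [if_neg hS, h4]; norm_num
      · have hS : Special src tgt F M x := Or.inr h4
        rw [if_pos hS]; omega
  refine (sum_le_sum h3).trans ?_
  rw [sum_add_distrib, ← mul_sum, sum_sub_distrib, ← h2, card_darts, sum_const, ← sum_filter,
    sum_const]
  have h4 : ((verts src tgt F).filter fun x => x ∈ M).card ≤ M.card := by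
    apply card_le_card
    intro x hx
    exact (mem_filter.1 hx).2
  have h5 : (((verts src tgt F).filter fun x => x ∈ M).card : ℤ) ≤ M.card := by exact_mod_cast h4
  simp only [nsmul_eq_mul]
  push_cast
  linarith

end walks

end Pool.Agent.MP_ec946a
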