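import Pool.Agent.Lib.MP_ec946a_Games.Core

set_option autoImplicit false

namespace Pool.Agent.MP_ec946a

open Finset

section core

variable {U V E A B : Type*} [DecidableEq U] [DecidableEq V] [DecidableEq E]
  [Fintype A] [DecidableEq A] [Fintype B] [DecidableEq B]

/-- `F` can be satisfied by labelings which agree with `hU`, `hV` on the marked vertices. -/
def SatRel (src : E → U) (tgt : E → V) (π : E → A → B) (M : Finset (U ⊕ V)) (hU : U → A)
    (hV : V → B) (F : Finset E) : Prop :=
  ∃ (gU : U → A) (gV : V → B), (∀ u, Sum.inl u ∈ M → gU u = hU u) ∧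
    (∀ v, Sum.inr v ∈ M → gV v = hV v) ∧ ∀ e ∈ F, π e (gU (src e)) = gV (tgt e)

variable {src : E → U} {tgt : E → V} {π : E → A → B} {M : Finset (U ⊕ V)} {hU : U → A}
  {hV : V → B} {F : Finset E}

omit [Fintype A] [DecidableEq A] [Fintype B] [DecidableEq B] in
theorem two_le_deg (hsurj : ∀ e b, ∃ a, π e a = b)
    (hF : ¬ SatRel src tgt π M hU hV F) (hmin : ∀ e ∈ F, SatRel src tgt π M hU hV (F.erase e))
    {x : U ⊕ V} (hx : x ∈ verts src tgt F) (hxM : x ∉ M) : 2 ≤ deg src tgt F x := by
  by_contra hlt
  obtain ⟨d, hd, rfl⟩ := mem_image.1 hx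
  have hdF := mem_darts.1 hd
  have hcard : ((darts F).filter fun d' => vt src tgt d' = vt src tgt d).card ≤ 1 := by
    unfold deg at hlt; omega
  rw [card_le_one] at hcard
  have huniq : ∀ e ∈ F, vt src tgt (e, d.2) = vt src tgt d → e = d.1 := by
    intro e he h
    have := hcard (e, d.2) (mem_filter.2 ⟨mem_darts.2 he, h⟩) d (mem_filter.2 ⟨hd, rfl⟩)
    exact congrArg Prod.fst this
  obtain ⟨gU, gV, h1, h2, h3⟩ := hmin d.1 hdF
  apply hF
  rcases d with ⟨e, b⟩
  cases b with
  | true =>
    refine ⟨gU, Function.update gV (tgt e) (π e (gU (src e))), h1, ?_, ?_⟩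
    · intro v hv
      rw [Function.update_of_ne]
      · exact h2 v hv
      · rintro rfl; exact hxM hv
    · intro e' he'
      by_cases hee : e' = e
      · subst hee; rw [Function.update_self]
      · rw [Function.update_of_ne]
        · exact h3 e' (mem_erase.2 ⟨hee, he'⟩)
        · intro h4
          exact hee (huniq e' he' (by simp [vt, h4]))
  | false =>
    obtain ⟨a, ha⟩ := hsurj e (gV (tgt e))
    refine ⟨Function.update gU (src e) a, gV, ?_, h2, ?_⟩
    · intro v hv
      rw [Function.update_of_ne]
      · exact h1 v hv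
      · rintro rfl; exact hxM hv
    · intro e' he'
      by_cases hee : e' = e
      · subst hee; rw [Function.update_self]; exact ha
      · rw [Function.update_of_ne]
        · exact h3 e' (mem_erase.2 ⟨hee, he'⟩)
        · intro h4
          exact hee (huniq e' he' (by simp [vt, h4]))

omit [Fintype A] [DecidableEq A] [Fintype B] [DecidableEq B] in
theorem two_darts {x : U ⊕ V} (h2 : deg src tgt F x = 2) {d₁ d₂ : E × Bool} (h1F : d₁.1 ∈ F)
    (h2F : d₂.1 ∈ F) (h1x : vt src tgt d₁ = x) (h2x : vt src tgt d₂ = x) (hne : d₁ ≠ d₂)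
    {d : E × Bool} (hd : d.1 ∈ F) (hdx : vt src tgt d = x) : d = d₁ ∨ d = d₂ := by
  have hsub : ({d₁, d₂} : Finset (E × Bool)) ⊆ (darts F).filter fun d => vt src tgt d = x := by
    intro y hy
    rw [mem_insert, mem_singleton] at hy
    rw [mem_filter, mem_darts]
    rcases hy with rfl | rfl
    · exact ⟨h1F, h1x⟩
    · exact ⟨h2F, h2x⟩
  have heq := eq_of_subset_of_card_le hsub (by
    rw [card_pair hne]; exact h2.le)
  have : d ∈ ({d₁, d₂} : Finset (E × Bool)) := by
    rw [heq, mem_filter, mem_darts]; exact ⟨hd, hdx⟩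
  rwa [mem_insert, mem_singleton] at this

/-- the graph has no short closed walks -/
def NoShort (src : E → U) (tgt : E → V) (R : ℕ) : Prop :=
  ∀ m, m + 1 ≤ R → ∀ p : ℕ → E × Bool, (∀ i < m, Follow src tgt (p i) (p (i + 1))) →
    vt src tgt (p m) ≠ vt src tgt ((p 0).1, !(p 0).2)

/-- A walk through unmarked vertices of degree two can be filled. -/
theorem fill_walk (hsurj : ∀ e b, ∃ a, π e a = b)
    (hexp : ∀ e e', src e = src e' → e ≠ e' → ∀ S : Finset B, S ≠ ∅ → S ≠ univ →
      S.card < ((univ.filter fun a => π e a ∈ S).image (π e')).card)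
    (hr : 2 ≤ Fintype.card B)
    (hns : NoShort src tgt (2 * Fintype.card B))
    (hmin : ∀ e ∈ F, SatRel src tgt π M hU hV (F.erase e))
    (p : ℕ → E × Bool) (hp0 : (p 0).2 = false) (hpF : ∀ i, (p i).1 ∈ F)
    (hpf : ∀ i < 2 * Fintype.card B - 3, Follow src tgt (p i) (p (i + 1)))
    (hps : ∀ i < 2 * Fintype.card B - 3, ¬ Special src tgt F M (vt src tgt (p i))) :
    SatRel src tgt π M hU hV F := by
  set r := Fintype.card B with hrdef
  have hside : ∀ i, (i ≤ 2 * r - 3) → (p i).2 = (decide (i % 2 = 1)) := by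
    intro i
    induction i with
    | zero => intro _; rw [hp0]; simp
    | succ i ih =>
      intro hi
      have h1 := ih (by omega)
      have h2 := (hpf i (by omega)).1
      rw [h2, h1]
      rcases Nat.mod_two_eq_zero_or_one i with h | h
      · have : (i + 1) % 2 = 1 := by omega
        simp [h, this]
      · have : (i + 1) % 2 = 0 := by omega
        simp [h, this]
  have hside0 : ∀ i, (2 * i ≤ 2 * r - 3) → (p (2 * i)).2 = false := by
    intro i hi
    rw [hside (2 * i) hi]
    simp
  have hside1 : ∀ i, (2 * i + 1 ≤ 2 * r - 3) → (p (2 * i + 1)).2 = true := by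
    intro i hi
    rw [hside (2 * i + 1) hi]
    simp [Nat.add_mod]
  set a : ℕ → E := fun i => (p (2 * i)).1 with ha
  set c : ℕ → E := fun i => (p (2 * i + 1)).1 with hc
  set uu : ℕ → U := fun i => src (p (2 * i)).1 with huu
  set vv : ℕ → V := fun i => if i = 0 then tgt (p 0).1 else tgt (p (2 * (i - 1) + 1)).1 with hvv
  have hvv0 : vv 0 = tgt (p 0).1 := by simp [hvv]
  have hvvs : ∀ i, vv (i + 1) = tgt (p (2 * i + 1)).1 := by intro i; simp [hvv]
  -- heads
  have hheadu : ∀ i, 2 * i ≤ 2 * r - 3 → vt src tgt (p (2 * i)) = Sum.inl (uu i) := by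
    intro i hi
    simp [vt, hside0 i hi, huu]
  have hheadv : ∀ i, 2 * i + 1 ≤ 2 * r - 3 → vt src tgt (p (2 * i + 1)) = Sum.inr (vv (i + 1)) := by
    intro i hi
    simp [vt, hside1 i hi, hvvs]
  have htailu : ∀ i, 2 * i + 1 ≤ 2 * r - 3 →
      vt src tgt ((p (2 * i + 1)).1, !(p (2 * i + 1)).2) = Sum.inl (uu i) := by
    intro i hi
    have h1 := (hpf (2 * i) (by omega))
    rw [h1.1, Bool.not_not, h1.2.2]
    exact hheadu i (by omega)
  have htailv : ∀ i, 2 * i ≤ 2 * r - 3 →
      vt src tgt ((p (2 * i)).1, !(p (2 * i)).2) = Sum.inr (vv i) := by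
    intro i hi
    cases i with
    | zero => simp [vt, hp0, hvv0]
    | succ i =>
      have h1 := (hpf (2 * i + 1) (by omega))
      have e1 : 2 * (i + 1) = 2 * i + 1 + 1 := by ring
      rw [e1, h1.1, Bool.not_not, h1.2.2]
      exact hheadv i (by omega)
  have hpath : ∀ i < r - 1, src (a i) = uu i ∧ src (c i) = uu i ∧ a i ≠ c i ∧ tgt (a i) = vv i ∧
      tgt (c i) = vv (i + 1) := by
    intro i hi
    refine ⟨rfl, ?_, ?_, ?_, ?_⟩
    · have h := htailu i (by omega)
      rw [hside1 i (by omega)] at h
      simpa [vt] using h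
    · exact (hpf (2 * i) (by omega)).2.1.symm
    · have h := htailv i (by omega)
      rw [hside0 i (by omega)] at h
      simpa [vt] using h
    · exact (hvvs i).symm
  have hud : ∀ i < r - 1, ∀ j < r - 1, uu i = uu j → i = j := by
    have key : ∀ i < r - 1, ∀ j < r - 1, i < j → uu i ≠ uu j := by
      intro i hi j hj hij h
      refine hns (2 * (j - i) - 1) (by omega) (fun l => p (2 * i + 1 + l)) ?_ ?_
      · intro l hl
        exact hpf (2 * i + 1 + l) (by omega)
      · have e1 : 2 * i + 1 + (2 * (j - i) - 1) = 2 * j := by omega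
        show vt src tgt (p (2 * i + 1 + (2 * (j - i) - 1))) =
          vt src tgt ((p (2 * i + 1)).1, !(p (2 * i + 1)).2)
        rw [e1, htailu i (by omega), hheadu j (by omega), h]
    intro i hi j hj h
    rcases lt_trichotomy i j with h1 | h1 | h1
    · exact absurd h (key i hi j hj h1)
    · exact h1
    · exact absurd h.symm (key j hj i hi h1)
  have hvd : ∀ i ≤ r - 1, ∀ j ≤ r - 1, vv i = vv j → i = j := by
    have key : ∀ i ≤ r - 1, ∀ j ≤ r - 1, i < j → vv i ≠ vv j := by
      intro i hi j hj hij h
      obtain ⟨j, rfl⟩ : ∃ j', j = j' + 1 := ⟨j - 1, by omega⟩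
      refine hns (2 * (j - i) + 1) (by omega) (fun l => p (2 * i + l)) ?_ ?_
      · intro l hl
        exact hpf (2 * i + l) (by omega)
      · have e1 : 2 * i + (2 * (j - i) + 1) = 2 * j + 1 := by omega
        show vt src tgt (p (2 * i + (2 * (j - i) + 1))) =
          vt src tgt ((p (2 * i)).1, !(p (2 * i)).2)
        rw [e1, htailv i (by omega), hheadv j (by omega), h]
    intro i hi j hj h
    rcases lt_trichotomy i j with h1 | h1 | h1
    · exact absurd h (key i hi j hj h1)
    · exact h1
    · exact absurd h.symm (key j hj i hi h1)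
  obtain ⟨gU, gV, g1, g2, g3⟩ := hmin (a 0) (hpF 0)
  obtain ⟨S, hS, hfill⟩ := fill_path src tgt π hsurj hexp a c uu vv (r - 1) hpath hud hvd gU gV
    (r - 1) le_rfl
  have hSu : S = univ := by
    rw [← card_eq_iff_eq_univ]
    apply le_antisymm (card_le_univ S)
    have : min (Fintype.card B) (r - 1 + 1) = Fintype.card B := by omega
    rw [this] at hS
    exact hS
  obtain ⟨fU, fV, f1, f2, f3, f4⟩ := hfill (gV (vv (r - 1))) (by rw [hSu]; exact mem_univ _)
  -- the new labelings only differ at internal vertices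
  have hnsU : ∀ i < r - 1, ¬ Special src tgt F M (Sum.inl (uu i)) := by
    intro i hi
    rw [← hheadu i (by omega)]
    exact hps _ (by omega)
  have hnsV : ∀ i, i + 1 < r - 1 → ¬ Special src tgt F M (Sum.inr (vv (i + 1))) := by
    intro i hi
    rw [← hheadv i (by omega)]
    exact hps _ (by omega)
  have f2' : ∀ v, (∀ i, i + 1 < r - 1 → v ≠ vv (i + 1)) → fV v = gV v := by
    intro v hv
    by_cases h : v = vv (r - 1)
    · rw [h, f4]
    · apply f2
      intro i hi h'
      by_cases h5 : i + 1 < r - 1
      · exact hv i h5 h'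
      · have : i + 1 = r - 1 := by omega
        rw [this] at h'
        exact h h'
  refine ⟨fU, fV, ?_, ?_, ?_⟩
  · intro u hu
    rw [f1 u, g1 u hu]
    rintro i hi rfl
    exact hnsU i hi (Or.inl hu)
  · intro v hv
    rw [f2' v, g2 v hv]
    rintro i hi rfl
    exact hnsV i hi (Or.inl hv)
  · intro e he
    by_cases hpe : ∃ i < r - 1, e = a i ∨ e = c i
    · obtain ⟨i, hi, rfl | rfl⟩ := hpe
      · exact (f3 i hi).1
      · exact (f3 i hi).2
    · push Not at hpe
      have hsrc : fU (src e) = gU (src e) := by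
        apply f1
        intro i hi h
        have hdeg : deg src tgt F (Sum.inl (uu i)) = 2 := by
          by_contra h3; exact hnsU i hi (Or.inr h3)
        have hx1 : vt src tgt (a i, false) = Sum.inl (uu i) := by
          simp [vt, (hpath i hi).1]
        have hx2 : vt src tgt (c i, false) = Sum.inl (uu i) := by
          simp [vt, (hpath i hi).2.1]
        have := two_darts hdeg (d₁ := (a i, false)) (d₂ := (c i, false)) (hpF _) (hpF _) hx1 hx2
          (fun h => (hpath i hi).2.2.1 (Prod.mk.inj h).1) (d := (e, false)) he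
          (by simp [vt, h])
        rcases this with h6 | h6
        · exact (hpe i hi).1 (congrArg Prod.fst h6)
        · exact (hpe i hi).2 (congrArg Prod.fst h6)
      have htgt : fV (tgt e) = gV (tgt e) := by
        apply f2'
        intro i hi h
        have hdeg : deg src tgt F (Sum.inr (vv (i + 1))) = 2 := by
          by_contra h3; exact hnsV i hi (Or.inr h3)
        have hx1 : vt src tgt (c i, true) = Sum.inr (vv (i + 1)) := by
          simp [vt, (hpath i (by omega)).2.2.2.2]
        have hx2 : vt src tgt (a (i + 1), true) = Sum.inr (vv (i + 1)) := by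
          simp [vt, (hpath (i + 1) (by omega)).2.2.2.1]
        have hne : c i ≠ a (i + 1) := by
          have h7 := (hpf (2 * i + 1) (by omega)).2.1
          intro h8
          apply h7
          exact h8.symm
        have := two_darts hdeg (d₁ := (c i, true)) (d₂ := (a (i + 1), true)) (hpF _) (hpF _) hx1 hx2
          (fun h => hne (Prod.mk.inj h).1) (d := (e, true)) he
          (by simp [vt, h])
        rcases this with h6 | h6
        · exact (hpe i (by omega)).2 (congrArg Prod.fst h6)
        · exact (hpe (i + 1) (by omega)).1 (congrArg Prod.fst h6)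
      rw [hsrc, htgt]
      apply g3
      rw [mem_erase]
      exact ⟨(hpe 0 (by omega)).1, he⟩

theorem iterate_nxt_mem {d : E × Bool} (hd : d.1 ∈ F) (j : ℕ) :
    ((nxt src tgt F)^[j] d).1 ∈ F := by
  induction j with
  | zero => exact hd
  | succ j ih => rw [Function.iterate_succ_apply']; exact nxt_mem ih

/-- The core theorem: a minimal unsatisfiable set of edges, relative to marked labels, is not
much larger than the set of marks. -/
theorem core_bound (hsurj : ∀ e b, ∃ a, π e a = b)
    (hexp : ∀ e e', src e = src e' → e ≠ e' → ∀ S : Finset B, S ≠ ∅ → S ≠ univ →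
      S.card < ((univ.filter fun a => π e a ∈ S).image (π e')).card)
    (hr : 2 ≤ Fintype.card B)
    (hns : NoShort src tgt (2 * Fintype.card B))
    (hF : ¬ SatRel src tgt π M hU hV F)
    (hmin : ∀ e ∈ F, SatRel src tgt π M hU hV (F.erase e)) (L : ℕ)
    (hL : L = 2 * Fintype.card B - 2)
    (hsp : 6 * L * F.card ≤ F.card + 6 * L * (verts src tgt F).card) :
    F.card ≤ 4 * L * M.card := by
  classical
  by_contra hlt
  push Not at hlt
  have h1 := card_special F M (fun x hx hxM => two_le_deg (π := π) hsurj hF hmin hx hxM)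
  have h2 := card_bad (src := src) (tgt := tgt) F M L
  have h3 : ((darts F).filter fun d => ∃ j < L, Special src tgt F M
      (vt src tgt ((nxt src tgt F)^[j] d))).card < (darts F).card := by
    rw [card_darts]
    refine lt_of_le_of_lt h2 ?_
    have h4 : (L : ℤ) * (((darts F).filter fun d => Special src tgt F M (vt src tgt d)).card : ℤ) ≤
        L * (6 * ((F.card : ℤ) - (verts src tgt F).card) + 4 * M.card) :=
      mul_le_mul_of_nonneg_left h1 (by positivity)
    zify at hlt hsp ⊢
    nlinarith
  obtain ⟨d, hdF, hd⟩ : ∃ d ∈ darts F, ∀ j < L, ¬ Special src tgt F M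
      (vt src tgt ((nxt src tgt F)^[j] d)) := by
    by_contra hcon
    push Not at hcon
    apply h3.ne
    congr 1
    rw [filter_eq_self]
    exact hcon
  rw [mem_darts] at hdF
  have hdeg : ∀ j < L, deg src tgt F (vt src tgt ((nxt src tgt F)^[j] d)) = 2 := by
    intro j hj
    by_contra h; exact hd j hj (Or.inr h)
  have hfol : ∀ j < L, Follow src tgt ((nxt src tgt F)^[j] d) ((nxt src tgt F)^[j + 1] d) := by
    intro j hj
    rw [Function.iterate_succ_apply']
    exact (nxt_spec (iterate_nxt_mem hdF j) (hdeg j hj)).1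
  apply hF
  by_cases hd2 : d.2 = false
  · refine fill_walk hsurj hexp hr hns hmin (fun j => (nxt src tgt F)^[j] d) hd2
      (fun i => iterate_nxt_mem hdF i) (fun i hi => hfol i (by omega))
      (fun i hi => hd i (by omega))
  · refine fill_walk hsurj hexp hr hns hmin (fun j => (nxt src tgt F)^[j + 1] d) ?_
      (fun i => iterate_nxt_mem hdF _) (fun i hi => hfol (i + 1) (by omega))
      (fun i hi => hd (i + 1) (by omega))
    have h5 := (hfol 0 (by omega)).1
    simp only [zero_add, Function.iterate_zero, id_eq, Function.iterate_one] at h5 ⊢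
    rw [h5]
    simpa using hd2

end core

end Pool.Agent.MP_ec946a
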