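import Pool.Agent.Lib.MP_ec946a_Games.Defs

set_option autoImplicit false

namespace Pool.Agent.MP_ec946a

open Classical in
/-- label one more vertex -/
noncomputable def Game.upd {q : ℕ} (G : Game q) (h : G.Partial) (x : G.U ⊕ G.V) (b : Fin q) :
    G.Partial :=
  fun y => if y = x then some b else h y

open Classical in
/-- restriction to a set of vertices -/
noncomputable def Game.restr {q : ℕ} (G : Game q) (h : G.Partial) (Y : Set (G.U ⊕ G.V)) :
    G.Partial :=
  fun y => if y ∈ Y then h y else none

section
variable {q : ℕ} (G : Game q)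

theorem Game.upd_self (h : G.Partial) (x : G.U ⊕ G.V) (b : Fin q) : G.upd h x b x = some b := by
  simp [Game.upd]

theorem Game.upd_of_ne (h : G.Partial) {x y : G.U ⊕ G.V} (b : Fin q) (hxy : y ≠ x) :
    G.upd h x b y = h y := by
  simp [Game.upd, hxy]

theorem Game.restr_mem (h : G.Partial) {Y : Set (G.U ⊕ G.V)} {y : G.U ⊕ G.V} (hy : y ∈ Y) :
    G.restr h Y y = h y := by simp [Game.restr, hy]

theorem Game.restr_eq_some (h : G.Partial) {Y : Set (G.U ⊕ G.V)} {y : G.U ⊕ G.V} {a : Fin q} :
    G.restr h Y y = some a ↔ y ∈ Y ∧ h y = some a := by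
  unfold Game.restr
  split_ifs with h1 <;> simp [h1]

theorem Game.extends_restr (h : G.Partial) (Y : Set (G.U ⊕ G.V)) : G.Extends h (G.restr h Y) := by
  intro x a hx
  exact ((G.restr_eq_some h).1 hx).2

theorem Game.Extends.trans {h₁ h₂ h₃ : G.Partial} (h12 : G.Extends h₁ h₂) (h23 : G.Extends h₂ h₃) :
    G.Extends h₁ h₃ := fun x a hx => h12 x a (h23 x a hx)

theorem Game.size_restr_le (h : G.Partial) (Y : Set (G.U ⊕ G.V)) :
    G.size (G.restr h Y) ≤ Y.ncard := by
  apply Set.ncard_le_ncard _ (Set.toFinite _)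
  intro x hx
  by_contra hxY
  exact hx (by simp [Game.restr, hxY])

theorem Game.size_upd_le (h : G.Partial) (x : G.U ⊕ G.V) (b : Fin q) :
    G.size (G.upd h x b) ≤ G.size h + 1 := by
  have h1 : {y | G.upd h x b y ≠ none} ⊆ insert x {y | h y ≠ none} := by
    intro y hy
    by_cases hyx : y = x
    · exact Set.mem_insert_iff.2 (Or.inl hyx)
    · right
      simpa [G.upd_of_ne h b hyx] using hy
  calc G.size (G.upd h x b) ≤ (insert x {y | h y ≠ none}).ncard :=
        Set.ncard_le_ncard h1 (Set.toFinite _)
    _ ≤ _ := Set.ncard_insert_le _ _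

/-- The vertices through which the clause can still be satisfied. -/
def Game.active (H : Set G.Partial) (h : G.Partial) (C : G.Clause) : Set (G.U ⊕ G.V) :=
  {x | h x = none ∧ ∃ b ∈ C x, G.upd h x b ∈ H}

/-- The clause is satisfied by the partial labeling. -/
def Game.sat (h : G.Partial) (C : G.Clause) : Prop := ∃ x, ∃ b ∈ C x, h x = some b

/-- The clause is fat. -/
def Game.fat (H : Set G.Partial) (d : ℕ) (h : G.Partial) (C : G.Clause) : Prop :=
  ¬ G.sat h C ∧ d < (G.active H h C).ncard

variable {G}
variable {k : ℕ} {H : Set G.Partial}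

/-- closure properties -/
structure IsFam (G : Game q) (k : ℕ) (H : Set G.Partial) : Prop where
  ne : H.Nonempty
  le : ∀ h ∈ H, G.size h ≤ k
  resp : ∀ h ∈ H, G.Respects h
  down : ∀ h ∈ H, ∀ h', G.Extends h h' → h' ∈ H
  ext : ∀ h ∈ H, G.size h < k → ∀ x, ∃ h' ∈ H, G.Extends h' h ∧ h' x ≠ none

theorem IsFam.empty (hH : IsFam G k H) : (fun _ => none) ∈ H := by
  obtain ⟨h, hh⟩ := hH.ne
  exact hH.down h hh _ (fun x a hx => by cases hx)

theorem Game.size_none : G.size (fun _ => none) = 0 := by simp [Game.size]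

/-- one vertex more, with controlled size -/
theorem IsFam.ext1 (hH : IsFam G k H) {h : G.Partial} (hh : h ∈ H) (hs : G.size h < k)
    (x : G.U ⊕ G.V) (hx : h x = none) : ∃ b, G.upd h x b ∈ H := by
  obtain ⟨h', hh', hext, hx'⟩ := hH.ext h hh hs x
  obtain ⟨b, hb⟩ := Option.ne_none_iff_exists'.1 hx'
  refine ⟨b, hH.down h' hh' _ ?_⟩
  intro y a hy
  by_cases hyx : y = x
  · subst hyx
    rw [G.upd_self] at hy
    rw [hb]; exact hy
  · rw [G.upd_of_ne h b hyx] at hy
    exact hext y a hy

theorem Game.extends_upd {h : G.Partial} {x : G.U ⊕ G.V} (hx : h x = none) (b : Fin q) :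
    G.Extends (G.upd h x b) h := by
  intro y a hy
  have : y ≠ x := fun e => by rw [e, hx] at hy; cases hy
  rw [G.upd_of_ne h b this]; exact hy

/-- extension to a finite set of vertices -/
theorem IsFam.extSet (hH : IsFam G k H) (Y : Finset (G.U ⊕ G.V)) :
    ∀ h ∈ H, G.size h + Y.card ≤ k → ∃ h' ∈ H, G.Extends h' h ∧ (∀ y ∈ Y, h' y ≠ none) ∧
      G.size h' ≤ G.size h + Y.card := by
  classical
  induction Y using Finset.induction_on with
  | empty => intro h hh _; exact ⟨h, hh, fun _ _ hx => hx, by simp, by simp⟩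
  | insert y Y hy ih =>
    intro h hh hs
    rw [Finset.card_insert_of_notMem hy] at hs
    obtain ⟨h1, hh1, he1, hY1, hs1⟩ := ih h hh (by omega)
    by_cases hn : h1 y = none
    · obtain ⟨b, hb⟩ := hH.ext1 hh1 (by omega) y hn
      refine ⟨_, hb, (Game.extends_upd hn b).trans _ he1, ?_, ?_⟩
      · intro z hz
        rcases Finset.mem_insert.1 hz with rfl | hz
        · rw [G.upd_self]; simp
        · intro hzn
          apply hY1 z hz
          by_cases hzy : z = y
          · rw [hzy] at hzn; rw [G.upd_self] at hzn; cases hzn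
          · rwa [G.upd_of_ne h1 b hzy] at hzn
      · rw [Finset.card_insert_of_notMem hy]
        have := G.size_upd_le h1 y b
        omega
    · refine ⟨h1, hh1, he1, ?_, ?_⟩
      · intro z hz
        rcases Finset.mem_insert.1 hz with rfl | hz
        · exact hn
        · exact hY1 z hz
      · rw [Finset.card_insert_of_notMem hy]; omega

theorem IsFam.active_mono (hH : IsFam G k H) {h h' : G.Partial} (he : G.Extends h' h)
    (C : G.Clause) : G.active H h' C ⊆ G.active H h C := by
  rintro y ⟨hy, b, hb, hup⟩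
  have hyn : h y = none := by
    by_contra hne
    obtain ⟨a, ha⟩ := Option.ne_none_iff_exists'.1 hne
    rw [he y a ha] at hy; cases hy
  refine ⟨hyn, b, hb, hH.down _ hup _ ?_⟩
  intro z a hz
  by_cases hzy : z = y
  · subst hzy
    rw [G.upd_self] at hz ⊢; exact hz
  · rw [G.upd_of_ne h b hzy] at hz
    rw [G.upd_of_ne h' b hzy]
    exact he z a hz

theorem Game.sat_mono {h h' : G.Partial} (he : G.Extends h' h) {C : G.Clause}
    (hs : G.sat h C) : G.sat h' C := by
  obtain ⟨x, b, hb, hx⟩ := hs
  exact ⟨x, b, hb, he x b hx⟩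

theorem IsFam.fat_mono (hH : IsFam G k H) {h h' : G.Partial} (he : G.Extends h' h)
    {C : G.Clause} {d : ℕ} (hf : G.fat H d h' C) : G.fat H d h C :=
  ⟨fun hs => hf.1 (Game.sat_mono he hs), lt_of_lt_of_le hf.2
    (Set.ncard_le_ncard (hH.active_mono he C) (Set.toFinite _))⟩

open Classical in
/-- the number of fat lines -/
noncomputable def numFat {L : ℕ} (R : G.Refutation L) (H : Set G.Partial) (d : ℕ)
    (h : G.Partial) : Finset (Fin L) :=
  Finset.univ.filter fun t => G.fat H d h (R.line t)

theorem IsFam.greedy (hH : IsFam G k H) {L : ℕ} (R : G.Refutation L) (d : ℕ) {h : G.Partial}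
    (hh : h ∈ H) (hf : (numFat R H d h).Nonempty) :
    ∃ x b, h x = none ∧ G.upd h x b ∈ H ∧
      (Fintype.card (G.U ⊕ G.V) * q) * (numFat R H d (G.upd h x b)).card ≤
      (numFat R H d h).card * (Fintype.card (G.U ⊕ G.V) * q - d) := by
  classical
  set X := G.U ⊕ G.V with hX
  set N := Fintype.card X * q with hN
  set Φ := numFat R H d h with hΦ
  -- the pairs
  set A : X × Fin q → Finset (Fin L) := fun p =>
    Φ.filter fun t => h p.1 = none ∧ p.2 ∈ R.line t p.1 ∧ G.upd h p.1 p.2 ∈ H with hA
  have hcard : Fintype.card (X × Fin q) = N := by simp [hN]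
  have hsum : Φ.card * d ≤ ∑ p : X × Fin q, (A p).card := by
    have h1 : ∑ p : X × Fin q, (A p).card =
        ∑ t ∈ Φ, (Finset.univ.filter fun p : X × Fin q =>
          h p.1 = none ∧ p.2 ∈ R.line t p.1 ∧ G.upd h p.1 p.2 ∈ H).card := by
      simp only [hA, Finset.card_filter]
      rw [Finset.sum_comm]
    rw [h1, ← smul_eq_mul, ← Finset.sum_const]
    apply Finset.sum_le_sum
    intro t ht
    have hfat : G.fat H d h (R.line t) := by
      rw [hΦ, numFat, Finset.mem_filter] at ht; exact ht.2
    refine hfat.2.le.trans ?_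
    rw [← Set.ncard_coe_finset]
    have h2 : (G.active H h (R.line t)) ⊆ Prod.fst '' (((Finset.univ.filter fun p : X × Fin q =>
          h p.1 = none ∧ p.2 ∈ R.line t p.1 ∧ G.upd h p.1 p.2 ∈ H) : Finset (X × Fin q)) :
          Set (X × Fin q)) := by
      rintro x ⟨hx, b, hb, hup⟩
      exact ⟨(x, b), Finset.mem_coe.2 (Finset.mem_filter.2 ⟨Finset.mem_univ _, hx, hb, hup⟩), rfl⟩
    exact (Set.ncard_le_ncard h2 (Set.toFinite _)).trans (Set.ncard_image_le (Set.toFinite _))
  -- a popular pair
  have hpop : ∃ p : X × Fin q, Φ.card * d ≤ N * (A p).card ∧ (A p).Nonempty ∨ d = 0 ∧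
      (h p.1 = none ∧ G.upd h p.1 p.2 ∈ H) := by
    by_cases hd : d = 0
    · obtain ⟨t, ht⟩ := hf
      have hfat : G.fat H d h (R.line t) := by
        rw [hΦ, numFat, Finset.mem_filter] at ht; exact ht.2
      have : (G.active H h (R.line t)).Nonempty := by
        rw [Set.nonempty_iff_ne_empty]
        intro h0
        have := hfat.2
        rw [h0, Set.ncard_empty] at this
        omega
      obtain ⟨x, hx, b, _, hup⟩ := this
      exact ⟨(x, b), Or.inr ⟨hd, hx, hup⟩⟩
    · by_contra hcon
      push Not at hcon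
      have hΦpos : 0 < Φ.card := Finset.card_pos.2 hf
      have hlt : ∀ p : X × Fin q, N * (A p).card < Φ.card * d ∨ A p = ∅ := by
        intro p
        by_contra h3
        push Not at h3
        have h4 := (hcon p).1 h3.1
        exact h3.2.ne_empty h4
      have hlt' : ∀ p : X × Fin q, N * (A p).card < Φ.card * d := by
        intro p
        rcases hlt p with h3 | h3
        · exact h3
        · rw [h3, Finset.card_empty, mul_zero]
          exact Nat.mul_pos hΦpos (Nat.pos_of_ne_zero hd)
      have hNpos : 0 < N := by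
        rw [← hcard]
        obtain ⟨t, ht⟩ := hf
        have hfat : G.fat H d h (R.line t) := by
          rw [hΦ, numFat, Finset.mem_filter] at ht; exact ht.2
        have : (G.active H h (R.line t)).Nonempty := by
          rw [Set.nonempty_iff_ne_empty]
          intro h0
          have := hfat.2
          rw [h0, Set.ncard_empty] at this
          omega
        obtain ⟨x, hx, b, _, hup⟩ := this
        exact Fintype.card_pos_iff.2 ⟨(x, b)⟩
      have h5 : N * ∑ p : X × Fin q, (A p).card < N * (Φ.card * d) := by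
        rw [Finset.mul_sum]
        calc ∑ p : X × Fin q, N * (A p).card < ∑ _p : X × Fin q, Φ.card * d := by
              apply Finset.sum_lt_sum_of_nonempty
              · rw [Finset.univ_nonempty_iff]
                exact Fintype.card_pos_iff.1 (by rw [hcard]; exact hNpos)
              · intro p _; exact hlt' p
          _ = N * (Φ.card * d) := by
              rw [Finset.sum_const, Finset.card_univ, hcard, smul_eq_mul]
      have h6 := Nat.lt_of_mul_lt_mul_left h5
      omega
  obtain ⟨⟨x, b⟩, hp⟩ := hpop
  have hxb : h x = none ∧ G.upd h x b ∈ H := by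
    rcases hp with ⟨_, ⟨t, ht⟩⟩ | ⟨_, h1⟩
    · rw [hA, Finset.mem_filter] at ht
      exact ⟨ht.2.1, ht.2.2.2⟩
    · exact h1
  refine ⟨x, b, hxb.1, hxb.2, ?_⟩
  have hsub : numFat R H d (G.upd h x b) ⊆ Φ \ A (x, b) := by
    intro t ht
    rw [numFat, Finset.mem_filter] at ht
    rw [Finset.mem_sdiff]
    refine ⟨?_, ?_⟩
    · rw [hΦ, numFat, Finset.mem_filter]
      exact ⟨Finset.mem_univ _, hH.fat_mono (Game.extends_upd hxb.1 b) ht.2⟩
    · intro htA
      rw [hA, Finset.mem_filter] at htA
      exact ht.2.1 ⟨x, b, htA.2.2.1, G.upd_self h x b⟩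
  have hcardle : (numFat R H d (G.upd h x b)).card + (A (x, b)).card ≤ Φ.card := by
    have h1 := Finset.card_le_card hsub
    have h2 : A (x, b) ⊆ Φ := Finset.filter_subset _ _
    rw [Finset.card_sdiff_of_subset h2] at h1
    have h3 := Finset.card_le_card h2
    omega
  have hkey : Φ.card * d ≤ N * (A (x, b)).card := by
    rcases hp with ⟨h1, _⟩ | ⟨h1, _⟩
    · exact h1
    · rw [h1]; simp
  have h7 : N * (numFat R H d (G.upd h x b)).card + N * (A (x, b)).card ≤ N * Φ.card := by
    rw [← mul_add]; exact Nat.mul_le_mul_left _ hcardle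
  rw [Nat.mul_sub]
  have h8 : Φ.card * N = N * Φ.card := mul_comm _ _
  omega

/-- Killing all fat lines. -/
theorem IsFam.kill (hH : IsFam G k H) {L : ℕ} (R : G.Refutation L) (d : ℕ) (i : ℕ) :
    ∃ h ∈ H, G.size h ≤ i ∧ ((numFat R H d h).card : ℝ) ≤
      L * Real.exp (-(i * (d / (Fintype.card (G.U ⊕ G.V) * q : ℕ) : ℝ))) := by
  classical
  induction i with
  | zero =>
    refine ⟨_, hH.empty, ?_, ?_⟩
    · rw [Game.size_none]
    · simp only [Nat.cast_zero, zero_mul, neg_zero, Real.exp_zero, mul_one]
      have : (numFat R H d fun _ => none).card ≤ L := by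
        calc _ ≤ (Finset.univ : Finset (Fin L)).card := Finset.card_le_card (Finset.subset_univ _)
          _ = L := by simp
      exact_mod_cast this
  | succ i ih =>
    obtain ⟨h, hh, hs, hb⟩ := ih
    by_cases hf : (numFat R H d h).Nonempty
    · obtain ⟨x, b, hx, hup, hle⟩ := hH.greedy R d hh hf
      refine ⟨_, hup, (G.size_upd_le h x b).trans (by omega), ?_⟩
      set N := Fintype.card (G.U ⊕ G.V) * q with hN
      have hNpos : (0 : ℝ) < N := by
        have : 0 < N := by
          rw [hN]
          exact Nat.mul_pos (Fintype.card_pos_iff.2 ⟨x⟩) (by have := b.isLt; omega)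
        exact_mod_cast this
      have hdN : d ≤ N := by
        obtain ⟨t, ht⟩ := hf
        have hfat : G.fat H d h (R.line t) := by
          rw [numFat, Finset.mem_filter] at ht; exact ht.2
        have h1 : (G.active H h (R.line t)).ncard ≤ Fintype.card (G.U ⊕ G.V) := by
          rw [← Nat.card_eq_fintype_card, ← Set.ncard_univ]
          exact Set.ncard_le_ncard (Set.subset_univ _) (Set.toFinite _)
        have h2 : Fintype.card (G.U ⊕ G.V) ≤ N := by
          rw [hN]; exact Nat.le_mul_of_pos_right _ (by have := b.isLt; omega)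
        exact (hfat.2.le.trans h1).trans h2
      have h1 : (N : ℝ) * (numFat R H d (G.upd h x b)).card ≤
          (numFat R H d h).card * ((N : ℝ) - d) := by
        have h2 : (((N * (numFat R H d (G.upd h x b)).card : ℕ)) : ℝ) ≤
            ((numFat R H d h).card * (N - d) : ℕ) := by exact_mod_cast hle
        push_cast [Nat.cast_sub hdN] at h2
        exact h2
      have h3 : ((numFat R H d (G.upd h x b)).card : ℝ) ≤
          (numFat R H d h).card * (1 - d / N) := by
        have h4 : (numFat R H d h).card * (1 - (d : ℝ) / N) =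
            ((numFat R H d h).card * ((N : ℝ) - d)) / N := by
          field_simp
        rw [h4, le_div_iff₀ hNpos]
        linarith
      have h5 : 1 - (d : ℝ) / N ≤ Real.exp (-(d / N)) := by
        have := Real.add_one_le_exp (-((d : ℝ) / N))
        linarith
      calc ((numFat R H d (G.upd h x b)).card : ℝ) ≤ (numFat R H d h).card * (1 - d / N) := h3
        _ ≤ (numFat R H d h).card * Real.exp (-(d / N)) :=
            mul_le_mul_of_nonneg_left h5 (by positivity)
        _ ≤ (L * Real.exp (-(i * (d / N)))) * Real.exp (-(d / N)) :=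
            mul_le_mul_of_nonneg_right hb (Real.exp_pos _).le
        _ = L * Real.exp (-((i + 1 : ℕ) * (d / N))) := by
            rw [mul_assoc, ← Real.exp_add]
            congr 2
            push_cast
            ring
    · refine ⟨h, hh, hs.trans (Nat.le_succ _), ?_⟩
      rw [Finset.not_nonempty_iff_eq_empty.1 hf]
      simp only [Finset.card_empty, Nat.cast_zero]
      positivity

/-- `g` blocks the clause `C`. -/
def Game.Blocks (G : Game q) (H : Set G.Partial) (h g : G.Partial) (C : G.Clause) : Prop :=
  (∀ x b, g x = some b → b ∉ C x) ∧ ∀ x ∈ G.active H h C, g x ≠ none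

/-- Without fat lines there is no refutation. -/
theorem IsFam.walk (hH : IsFam G k H) {L : ℕ} (R : G.Refutation L) {d t : ℕ} (hd : 2 ≤ d)
    (htd : t + 3 * d ≤ k) {h : G.Partial} (hh : h ∈ H) (hs : G.size h ≤ t)
    (hf : numFat R H d h = ∅) (s : Fin L) : ∀ g ∈ H, G.Extends g h → G.size g ≤ t + d →
      G.Blocks H h g (R.line s) → False := by
  classical
  induction s using WellFoundedLT.induction with
  | _ s ih =>
  intro g hg hgh hgs hblock
  obtain ⟨P, Q, hPQ, hPs, himp⟩ := R.sound s
  have hthin : ∀ p : Fin L, ¬ G.sat h (R.line p) → (G.active H h (R.line p)).ncard ≤ d := by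
    intro p hp
    by_contra hcon
    have : p ∈ numFat R H d h := by
      rw [numFat, Finset.mem_filter]
      exact ⟨Finset.mem_univ _, hp, not_le.1 hcon⟩
    rw [hf] at this
    exact absurd this (Finset.notMem_empty _)
  -- the set of vertices to be added
  let Y : Finset (G.U ⊕ G.V) :=
    (P.biUnion fun p => if G.sat h (R.line p) then ∅ else (G.active H h (R.line p)).toFinset) ∪
      (Q.biUnion fun e => {Sum.inl (G.src e), Sum.inr (G.tgt e)})
  have hY : Y.card ≤ 2 * d := by
    have h1 : (P.biUnion fun p => if G.sat h (R.line p) then (∅ : Finset (G.U ⊕ G.V)) else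
        (G.active H h (R.line p)).toFinset).card ≤ P.card * d := by
      apply Finset.card_biUnion_le_card_mul
      intro p _
      split_ifs with h2
      · simp
      · rw [← Set.ncard_eq_toFinset_card']
        exact hthin p h2
    have h2 : (Q.biUnion fun e => ({Sum.inl (G.src e), Sum.inr (G.tgt e)} :
        Finset (G.U ⊕ G.V))).card ≤ Q.card * d := by
      apply Finset.card_biUnion_le_card_mul
      intro e _
      exact (Finset.card_le_two).trans hd
    calc Y.card ≤ P.card * d + Q.card * d := (Finset.card_union_le _ _).trans (add_le_add h1 h2)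
      _ = (P.card + Q.card) * d := by ring
      _ ≤ 2 * d := Nat.mul_le_mul_right _ hPQ
  obtain ⟨g', hg', hgg', hYg', hsg'⟩ := hH.extSet Y g hg (by omega)
  have hg'h : G.Extends g' h := hgg'.trans _ hgh
  -- vertices not labelled by `g'` can avoid the clause
  have hsize : G.size h < k := by omega
  have hfree : ∀ y, g' y = none → ∃ b, b ∉ R.line s y := by
    intro y hy
    have hyh : h y = none := by
      by_contra hne
      obtain ⟨a, ha⟩ := Option.ne_none_iff_exists'.1 hne
      rw [hg'h y a ha] at hy; cases hy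
    obtain ⟨b, hb⟩ := hH.ext1 hh hsize y hyh
    refine ⟨b, fun hbC => ?_⟩
    have hact : y ∈ G.active H h (R.line s) := ⟨hyh, b, hbC, hb⟩
    have h1 := hblock.2 y hact
    obtain ⟨a, ha⟩ := Option.ne_none_iff_exists'.1 h1
    rw [hgg' y a ha] at hy; cases hy
  -- the total labeling
  let x : G.U ⊕ G.V → Fin q := fun y =>
    match hy : g' y with
    | some b => b
    | none => Classical.choose (hfree y hy)
  have hx_some : ∀ y b, g' y = some b → x y = b := by
    intro y b hy
    simp only [x]
    split
    · rename_i b' hb'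
      rw [hy] at hb'; exact (Option.some.inj hb').symm
    · rename_i hb'
      rw [hy] at hb'; cases hb'
  have hx_none : ∀ y, g' y = none → x y ∉ R.line s y := by
    intro y hy
    simp only [x]
    split
    · rename_i b' hb'
      rw [hy] at hb'; cases hb'
    · rename_i hb'
      exact Classical.choose_spec (hfree y hb')
  have hnot : ¬ G.Holds x (R.line s) := by
    rintro ⟨y, hy⟩
    by_cases hyn : g' y = none
    · exact hx_none y hyn hy
    · obtain ⟨b, hb⟩ := Option.ne_none_iff_exists'.1 hyn
      rw [hx_some y b hb] at hy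
      by_cases hgy : g y = none
      · have hyh : h y = none := by
          by_contra hne
          obtain ⟨a, ha⟩ := Option.ne_none_iff_exists'.1 hne
          rw [hgh y a ha] at hgy; cases hgy
        apply hblock.2 y _ hgy
        refine ⟨hyh, b, hy, hH.down g' hg' _ ?_⟩
        intro z a hz
        by_cases hzy : z = y
        · subst hzy
          rw [G.upd_self] at hz
          rw [hb]; exact hz
        · rw [G.upd_of_ne h b hzy] at hz
          exact hg'h z a hz
      · obtain ⟨a, ha⟩ := Option.ne_none_iff_exists'.1 hgy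
        have h1 := hgg' y a ha
        rw [hb] at h1
        have h2 : b = a := Option.some.inj h1
        exact hblock.1 y a ha (h2 ▸ hy)
  -- some premise fails
  by_cases hQ : ∀ e ∈ Q, G.HoldsEdge x e
  · by_cases hP : ∀ p ∈ P, G.Holds x (R.line p)
    · exact hnot (himp x hP hQ)
    · push Not at hP
      obtain ⟨p, hp, hpx⟩ := hP
      have hps : ¬ G.sat h (R.line p) := by
        rintro ⟨y, b, hb, hy⟩
        exact hpx ⟨y, by rw [hx_some y b (hg'h y b hy)]; exact hb⟩
      let Z : Set (G.U ⊕ G.V) := {y | h y ≠ none} ∪ G.active H h (R.line p)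
      refine ih p (hPs p hp) (G.restr g' Z) (hH.down g' hg' _ (G.extends_restr g' Z)) ?_ ?_ ?_
      · intro y a hy
        rw [G.restr_eq_some]
        exact ⟨Or.inl (by show h y ≠ none; rw [hy]; simp), hg'h y a hy⟩
      · refine (G.size_restr_le g' Z).trans ((Set.ncard_union_le _ _).trans ?_)
        exact add_le_add hs (hthin p hps)
      · constructor
        · intro y b hy hbC
          have h1 := ((G.restr_eq_some g').1 hy).2
          exact hpx ⟨y, by rw [hx_some y b h1]; exact hbC⟩
        · intro y hy
          have h1 : y ∈ Z := Or.inr hy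
          rw [G.restr_mem g' h1]
          apply hYg'
          apply Finset.mem_union_left
          rw [Finset.mem_biUnion]
          refine ⟨p, hp, ?_⟩
          rw [if_neg hps, Set.mem_toFinset]
          exact hy
  · push Not at hQ
    obtain ⟨e, he, hxe⟩ := hQ
    apply hxe
    have h1 : g' (Sum.inl (G.src e)) ≠ none := hYg' _ (by
      apply Finset.mem_union_right
      rw [Finset.mem_biUnion]
      exact ⟨e, he, by simp⟩)
    have h2 : g' (Sum.inr (G.tgt e)) ≠ none := hYg' _ (by
      apply Finset.mem_union_right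
      rw [Finset.mem_biUnion]
      exact ⟨e, he, by simp⟩)
    obtain ⟨a, ha⟩ := Option.ne_none_iff_exists'.1 h1
    obtain ⟨b, hb⟩ := Option.ne_none_iff_exists'.1 h2
    unfold Game.HoldsEdge
    rw [hx_some _ a ha, hx_some _ b hb]
    exact hH.resp g' hg' e a b ha hb

/-- Size lower bound from consistency. -/
theorem size_lower_bound (G : Game q) {k L : ℕ} (hk : G.KConsistent k) (R : G.Refutation L)
    {d t : ℕ} (hd : 2 ≤ d) (htd : t + 3 * d ≤ k) :
    Real.exp (t * (d / (Fintype.card (G.U ⊕ G.V) * q : ℕ) : ℝ)) ≤ L := by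
  obtain ⟨H, h1, h2, h3, h4⟩ := hk
  have hH : IsFam G k H := ⟨h1, fun h hh => (h2 h hh).1, fun h hh => (h2 h hh).2, h3, h4⟩
  obtain ⟨h, hh, hs, hb⟩ := hH.kill R d t
  by_contra hcon
  push Not at hcon
  have hlt : ((numFat R H d h).card : ℝ) < 1 := by
    refine lt_of_le_of_lt hb ?_
    rw [Real.exp_neg, ← div_eq_mul_inv, div_lt_one (Real.exp_pos _)]
    exact hcon
  have h0 : numFat R H d h = ∅ := by
    rw [← Finset.card_eq_zero]
    have : (numFat R H d h).card < 1 := by exact_mod_cast hlt
    omega
  obtain ⟨s, hs0⟩ := R.last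
  refine hH.walk R hd htd hh hs h0 s h hh (fun _ _ hx => hx) (by omega) ?_
  constructor
  · intro x b _ hb'
    rw [hs0 x] at hb'; exact hb'
  · rintro x ⟨_, b, hb', _⟩
    rw [hs0 x] at hb'; exact absurd hb' (Set.notMem_empty _)

end

end Pool.Agent.MP_ec946a
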