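import Pool.Agent.Lib.MP_ec946a_Games.Core2
import Pool.Agent.Lib.MP_ec946a_Games.Size

set_option autoImplicit false

namespace Pool.Agent.MP_ec946a

open Finset

section minimal

variable {U V E A B : Type*} [DecidableEq U] [DecidableEq V] [DecidableEq E]
  {src : E → U} {tgt : E → V} {π : E → A → B} {M : Finset (U ⊕ V)} {hU : U → A}
  {hV : V → B}

omit [DecidableEq U] [DecidableEq V] in
theorem exists_minimal_unsat (F : Finset E) (hF : ¬ SatRel src tgt π M hU hV F) :
    ∃ F' ⊆ F, ¬ SatRel src tgt π M hU hV F' ∧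
      ∀ e ∈ F', SatRel src tgt π M hU hV (F'.erase e) := by
  induction F using Finset.strongInduction with
  | H F ih =>
    by_cases h : ∀ e ∈ F, SatRel src tgt π M hU hV (F.erase e)
    · exact ⟨F, Subset.rfl, hF, h⟩
    · push Not at h
      obtain ⟨e, he, hne⟩ := h
      obtain ⟨F', h1, h2, h3⟩ := ih (F.erase e) (erase_ssubset he) hne
      exact ⟨F', h1.trans (erase_subset _ _), h2, h3⟩

omit [DecidableEq U] [DecidableEq V] [DecidableEq E] in
theorem SatRel.mono {F F' : Finset E} (h : SatRel src tgt π M hU hV F) (hF : F' ⊆ F) :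
    SatRel src tgt π M hU hV F' := by
  obtain ⟨gU, gV, h1, h2, h3⟩ := h
  exact ⟨gU, gV, h1, h2, fun e he => h3 e (hF he)⟩

end minimal

section fam

variable {r : ℕ} (hr : 2 ≤ r) (G : Game (2 * r)) (π : G.E → Fin (2 * r) → Fin r)

open Classical in
/-- the labelled vertices -/
noncomputable def mdom (h : G.Partial) : Finset (G.U ⊕ G.V) := univ.filter fun x => h x ≠ none

/-- left labels -/
def lU (h : G.Partial) (u : G.U) : Fin (2 * r) := (h (Sum.inl u)).getD ⟨0, by omega⟩

/-- right labels -/
def lV (h : G.Partial) (v : G.V) : Fin r :=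
  ⟨((h (Sum.inr v)).getD ⟨0, by omega⟩).val % r, Nat.mod_lt _ (by omega)⟩

theorem card_mdom (h : G.Partial) : (mdom G h).card = G.size h := by
  classical
  unfold Game.size
  rw [← Set.ncard_coe_finset]
  congr 1
  ext x
  simp [mdom]

theorem mem_mdom {h : G.Partial} {x : G.U ⊕ G.V} : x ∈ mdom G h ↔ h x ≠ none := by
  simp [mdom]

/-- satisfiable relative to a partial labeling -/
def SatH (h : G.Partial) (F : Finset G.E) : Prop :=
  SatRel G.src G.tgt π (mdom G h) (lU hr G h) (lV hr G h) F

variable {G π}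

theorem lU_congr {h h' : G.Partial} {u : G.U} (he : h (Sum.inl u) = h' (Sum.inl u)) :
    lU hr G h u = lU hr G h' u := by
  simp only [lU, he]

theorem lV_congr {h h' : G.Partial} {v : G.V} (he : h (Sum.inr v) = h' (Sum.inr v)) :
    lV hr G h v = lV hr G h' v := by
  simp only [lV, he]

variable {hr}

theorem SatH.restrict {h h' : G.Partial} (hext : G.Extends h h') {F : Finset G.E}
    (hs : SatH hr G π h F) : SatH hr G π h' F := by
  obtain ⟨gU, gV, h1, h2, h3⟩ := hs
  refine ⟨gU, gV, ?_, ?_, h3⟩
  · intro u hu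
    obtain ⟨a, ha⟩ := Option.ne_none_iff_exists'.1 (mem_mdom G |>.1 hu)
    have hb := hext _ _ ha
    rw [h1 u ((mem_mdom G).2 (by rw [hb]; exact Option.some_ne_none a))]
    exact lU_congr hr (hb.trans ha.symm)
  · intro v hv
    obtain ⟨a, ha⟩ := Option.ne_none_iff_exists'.1 (mem_mdom G |>.1 hv)
    have hb := hext _ _ ha
    rw [h2 v ((mem_mdom G).2 (by rw [hb]; exact Option.some_ne_none a))]
    exact lV_congr hr (hb.trans ha.symm)

theorem kconsistent_of (hr : 2 ≤ r) [DecidableEq G.U] [DecidableEq G.V] [DecidableEq G.E]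
    (hπ : ∀ e a, (G.proj e a).val = (π e a).val)
    (hsurj : ∀ e b, ∃ a, π e a = b)
    (hexp : ∀ e e', G.src e = G.src e' → e ≠ e' → ∀ S : Finset (Fin r), S ≠ ∅ → S ≠ univ →
      S.card < ((univ.filter fun a => π e a ∈ S).image (π e')).card)
    (hns : NoShort G.src G.tgt (2 * r)) (k L : ℕ) (hL : L = 2 * r - 2)
    (hsp : ∀ F : Finset G.E, F.card ≤ 2 * r * (4 * L * k) →
      6 * L * F.card ≤ F.card + 6 * L * (verts G.src G.tgt F).card) :
    G.KConsistent k := by
  classical
  have hcore : ∀ (h : G.Partial) (F : Finset G.E), F.card ≤ 2 * r * (4 * L * k) →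
      ¬ SatH hr G π h F → ∃ F' ⊆ F, ¬ SatH hr G π h F' ∧ F'.card ≤ 4 * L * G.size h := by
    intro h F hF hun
    obtain ⟨F', h1, h2, h3⟩ := exists_minimal_unsat F hun
    refine ⟨F', h1, h2, ?_⟩
    rw [← card_mdom]
    have hc : Fintype.card (Fin r) = r := Fintype.card_fin r
    exact core_bound hsurj hexp (by rw [hc]; exact hr) (by rw [hc]; exact hns) h2 h3 L
      (by rw [hc]; exact hL) (hsp F' ((card_le_card h1).trans hF))
  have hempty : ∀ h : G.Partial, SatH hr G π h ∅ :=
    fun h => ⟨lU hr G h, lV hr G h, fun _ _ => rfl, fun _ _ => rfl, by simp⟩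
  -- the family
  refine ⟨{h | G.size h ≤ k ∧ (∀ v b, h (Sum.inr v) = some b → b.val < r) ∧
    ∀ F : Finset G.E, F.card ≤ 4 * L * k → SatH hr G π h F}, ?_, ?_, ?_, ?_⟩
  · refine ⟨fun _ => none, ?_, ?_, ?_⟩
    · simp [Game.size]
    · intro v b hb
      exact absurd hb (by simp)
    · intro F hF
      by_contra hun
      obtain ⟨F', h1, h2, h3⟩ := hcore _ F (hF.trans (Nat.le_mul_of_pos_left _ (by omega))) hun
      have h4 : G.size (fun _ => none) = 0 := by simp [Game.size]
      rw [h4, mul_zero, Nat.le_zero, card_eq_zero] at h3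
      rw [h3] at h2
      exact h2 (hempty _)
  · rintro h ⟨h1, h2, h3⟩
    refine ⟨h1, ?_⟩
    intro e a b ha hb
    have hk : 1 ≤ k := by
      refine le_trans ?_ h1
      rw [← card_mdom, Nat.one_le_iff_ne_zero, card_ne_zero]
      exact ⟨_, (mem_mdom G).2 (by rw [ha]; exact Option.some_ne_none a)⟩
    obtain ⟨gU, gV, g1, g2, g3⟩ := h3 {e} (by
      rw [card_singleton]
      have : 1 ≤ L := by omega
      nlinarith)
    have g4 := g3 e (mem_singleton_self e)
    have hau := g1 (G.src e) ((mem_mdom G).2 (by rw [ha]; exact Option.some_ne_none a))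
    have hbv := g2 (G.tgt e) ((mem_mdom G).2 (by rw [hb]; exact Option.some_ne_none b))
    have hau' : gU (G.src e) = a := by rw [hau]; unfold lU; rw [ha]; rfl
    have hbv' : (gV (G.tgt e)).val = b.val := by
      rw [hbv]
      simp only [lV, hb, Option.getD_some]
      exact Nat.mod_eq_of_lt (h2 _ _ hb)
    apply Fin.ext
    rw [hπ, ← hau', g4, hbv']
  · rintro h ⟨h1, h2, h3⟩ h' hext
    refine ⟨?_, ?_, ?_⟩
    · refine le_trans ?_ h1
      apply Set.ncard_le_ncard _ (Set.toFinite _)
      intro x hx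
      obtain ⟨a, ha⟩ := Option.ne_none_iff_exists'.1 hx
      show h x ≠ none
      rw [hext x a ha]
      exact Option.some_ne_none a
    · intro v b hb
      exact h2 v b (hext _ _ hb)
    · intro F hF
      exact (h3 F hF).restrict hext
  · rintro h ⟨h1, h2, h3⟩ hlt x
    by_cases hx : h x = none
    swap
    · exact ⟨h, ⟨h1, h2, h3⟩, fun _ _ h => h, hx⟩
    by_contra hcon
    push Not at hcon
    -- every label is obstructed
    have hobs : ∀ b : Fin (2 * r), ((∃ v, x = Sum.inr v) → b.val < r) →
        ∃ F : Finset G.E, F.card ≤ 4 * L * k ∧ ¬ SatH hr G π (G.upd h x b) F := by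
      intro b hb
      by_contra hc2
      push Not at hc2
      refine Option.some_ne_none b ((G.upd_self h x b).symm.trans
        (hcon (G.upd h x b) ⟨?_, ?_, ?_⟩ ?_))
      · have := G.size_upd_le h x b
        omega
      · intro v b' hb'
        by_cases hvx : Sum.inr v = x
        · subst hvx
          rw [G.upd_self] at hb'
          have : b = b' := by simpa using hb'
          rw [← this]
          exact hb ⟨v, rfl⟩
        · rw [G.upd_of_ne h b hvx] at hb'
          exact h2 v b' hb'
      · intro F hF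
        exact hc2 F hF
      · intro y a hy
        have hyx : y ≠ x := by rintro rfl; rw [hx] at hy; exact absurd hy (by simp)
        rw [G.upd_of_ne h b hyx]
        exact hy
    have hobs' : ∀ b : Fin (2 * r), ∃ F : Finset G.E, F.card ≤ 4 * L * k ∧
        (((∃ v, x = Sum.inr v) → b.val < r) → ¬ SatH hr G π (G.upd h x b) F) := by
      intro b
      by_cases hb : ((∃ v, x = Sum.inr v) → b.val < r)
      · obtain ⟨F, hF, hF2⟩ := hobs b hb
        exact ⟨F, hF, fun _ => hF2⟩
      · exact ⟨∅, by simp, fun h => absurd h hb⟩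
    choose Fb hFb hFb2 using hobs'
    set FF : Finset G.E := univ.biUnion Fb with hFF
    have hFFcard : FF.card ≤ 2 * r * (4 * L * k) := by
      refine card_biUnion_le.trans ?_
      refine (sum_le_sum (fun b _ => hFb b)).trans ?_
      rw [sum_const, card_univ, Fintype.card_fin, smul_eq_mul]
    have hsat : SatH hr G π h FF := by
      by_contra hun
      obtain ⟨F', h4, h5, h6⟩ := hcore h FF hFFcard hun
      exact h5 (h3 F' (h6.trans (Nat.mul_le_mul_left _ hlt.le)))
    obtain ⟨gU, gV, g1, g2, g3⟩ := hsat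
    -- the value at x
    rcases x with u | v
    · apply hFb2 (gU u) (by rintro ⟨v, hv⟩; exact absurd hv (by simp))
      refine ⟨gU, gV, ?_, ?_, fun e he => g3 e (mem_biUnion.2 ⟨_, mem_univ _, he⟩)⟩
      · intro u' hu'
        by_cases huu : u' = u
        · subst huu
          unfold lU
          rw [G.upd_self]
          rfl
        · have hne : (Sum.inl u' : G.U ⊕ G.V) ≠ Sum.inl u := fun h => huu (Sum.inl.inj h)
          have h7 := (mem_mdom G).1 hu'
          rw [G.upd_of_ne h _ hne] at h7
          rw [g1 u' ((mem_mdom G).2 h7)]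
          exact lU_congr hr (G.upd_of_ne h _ hne).symm
      · intro v' hv'
        have hne : (Sum.inr v' : G.U ⊕ G.V) ≠ Sum.inl u := by simp
        have h7 := (mem_mdom G).1 hv'
        rw [G.upd_of_ne h _ hne] at h7
        rw [g2 v' ((mem_mdom G).2 h7)]
        exact lV_congr hr (G.upd_of_ne h _ hne).symm
    · have hlt' : (gV v).val < 2 * r := by have := (gV v).isLt; omega
      apply hFb2 ⟨(gV v).val, hlt'⟩ (fun _ => (gV v).isLt)
      refine ⟨gU, gV, ?_, ?_, fun e he => g3 e (mem_biUnion.2 ⟨_, mem_univ _, he⟩)⟩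
      · intro u' hu'
        have hne : (Sum.inl u' : G.U ⊕ G.V) ≠ Sum.inr v := by simp
        have h7 := (mem_mdom G).1 hu'
        rw [G.upd_of_ne h _ hne] at h7
        rw [g1 u' ((mem_mdom G).2 h7)]
        exact lU_congr hr (G.upd_of_ne h _ hne).symm
      · intro v' hv'
        by_cases hvv : v' = v
        · subst hvv
          apply Fin.ext
          simp only [lV, G.upd_self, Option.getD_some]
          exact (Nat.mod_eq_of_lt (gV v').isLt).symm
        · have hne : (Sum.inr v' : G.U ⊕ G.V) ≠ Sum.inr v := fun h => hvv (Sum.inr.inj h)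
          have h7 := (mem_mdom G).1 hv'
          rw [G.upd_of_ne h _ hne] at h7
          rw [g2 v' ((mem_mdom G).2 h7)]
          exact lV_congr hr (G.upd_of_ne h _ hne).symm

end fam

end Pool.Agent.MP_ec946a
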