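import Pool.Agent.Lib.MP_ec946a_Games.Assemble

set_option autoImplicit false

namespace Pool.Agent.MP_ec946a

open Finset

/-- The choice of the prime. -/
theorem exists_prime (δ : ℝ) (hδ : 0 < δ) (hδ2 : δ ≤ 1 / 2) : ∃ p : ℕ, p.Prime ∧ 3 ≤ p ∧
    ((2 * (p / 2 + 1) : ℕ) : ℝ) ≤ 51 * (1 / δ) * Real.log (1 / δ) ∧
    3 * Real.exp 1 ≤ δ * ((p / 2 + 1 : ℕ) : ℝ) ∧
    2 * Real.log (2 * ((p / 2 + 1 : ℕ) : ℝ)) < δ * p := by
  set x := 1 / δ with hx
  set l := Real.log x with hl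
  have hx2 : 2 ≤ x := by
    rw [hx, le_div_iff₀ hδ]; linarith
  have hl1 : 0.6931471803 < l := lt_of_lt_of_le Real.log_two_gt_d9
    (Real.log_le_log (by norm_num) hx2)
  have hlx : l ≤ x := (Real.log_le_sub_one_of_pos (by linarith)).trans (by linarith)
  have hxl : 1.386 ≤ x * l := by nlinarith
  have hδx : δ * x = 1 := by rw [hx]; field_simp
  set N := ⌈24 * (x * l)⌉₊ with hN
  have hN1 : 24 * (x * l) ≤ N := Nat.le_ceil _
  have hN2 : (N : ℝ) < 24 * (x * l) + 1 := Nat.ceil_lt_add_one (by positivity)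
  have hN3 : 3 ≤ N := by
    have : (3 : ℝ) ≤ N := by linarith
    exact_mod_cast this
  obtain ⟨p, hp, hNp, hpN⟩ := Nat.exists_prime_lt_and_le_two_mul N (by omega)
  have hodd : p % 2 = 1 := hp.eq_two_or_odd.resolve_left (by omega)
  have hq : (2 * (p / 2 + 1) : ℕ) = p + 1 := by omega
  have hqR : (2 : ℝ) * ((p / 2 + 1 : ℕ) : ℝ) = p + 1 := by exact_mod_cast hq
  have hpR : (p : ℝ) ≤ 2 * N := by exact_mod_cast hpN
  have hpR2 : (N : ℝ) + 1 ≤ p := by exact_mod_cast hNp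
  have hup : (p : ℝ) + 1 ≤ 51 * (x * l) := by linarith
  refine ⟨p, hp, by omega, ?_, ?_, ?_⟩
  · rw [hq]; push_cast; linarith
  · have h1 : Real.exp 1 < 2.7182818286 := Real.exp_one_lt_d9
    have h2 : δ * (12 * (x * l)) ≤ δ * ((p / 2 + 1 : ℕ) : ℝ) := by
      apply mul_le_mul_of_nonneg_left _ hδ.le
      linarith
    have h3 : δ * (12 * (x * l)) = 12 * l := by
      rw [show δ * (12 * (x * l)) = 12 * l * (δ * x) by ring, hδx, mul_one]
    linarith
  · rw [hqR]
    have h1 : (p : ℝ) + 1 ≤ x ^ 8 := by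
      calc (p : ℝ) + 1 ≤ 51 * (x * l) := hup
        _ ≤ x ^ 6 * (x * x) := by
            have h6 : (2 : ℝ) ^ 6 ≤ x ^ 6 := pow_le_pow_left₀ (by norm_num) hx2 6
            have h7 : x * l ≤ x * x := mul_le_mul_of_nonneg_left hlx (by linarith)
            have h8 : (0 : ℝ) < x * x := by nlinarith
            nlinarith
        _ = x ^ 8 := by ring
    have h2 : Real.log ((p : ℝ) + 1) ≤ 8 * l := by
      calc Real.log ((p : ℝ) + 1) ≤ Real.log (x ^ 8) := Real.log_le_log (by positivity) h1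
        _ = 8 * l := by rw [Real.log_pow]; norm_num [hl]
    have h3 : 24 * l ≤ δ * p := by
      have h4 : δ * (24 * (x * l)) ≤ δ * p := mul_le_mul_of_nonneg_left (by linarith) hδ.le
      rw [show δ * (24 * (x * l)) = 24 * l * (δ * x) by ring, hδx, mul_one] at h4
      exact h4
    linarith

theorem main (δ : ℝ) (hδ : 0 < δ) (hδ2 : δ ≤ 1 / 2) :
    ∃ (q C : ℕ) (γ : ℝ), (q : ℝ) ≤ 51 * (1 / δ) * Real.log (1 / δ) ∧ 0 < γ ∧
      ∀ n : ℕ, 1 ≤ n → ∃ G : Game q, n ≤ Nat.card G.U ∧ n ≤ Nat.card G.V ∧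
        Nat.card G.U + Nat.card G.V + Nat.card G.E ≤ C * n ∧ G.value ≤ δ ∧
        ∀ k : ℕ, (k : ℝ) ≤ γ * n → G.KConsistent k ∧ ∀ L : ℕ, G.Refutation L → 2 ^ k ≤ L := by
  classical
  obtain ⟨p, hp, hp3, hq, h1, h2⟩ := exists_prime δ hδ hδ2
  have hg := gadget_prime p hp (by omega) p le_rfl
  obtain ⟨r, hr⟩ : ∃ r, r = p / 2 + 1 := ⟨_, rfl⟩
  rw [← hr] at hg hq h1 h2
  obtain ⟨φ, hφ, hφe⟩ := hg
  have hr2 : 2 ≤ r := by omega
  obtain ⟨C, c, hC, hc, hgraph⟩ := exists_sparse p (2 * r) (6 * (2 * r - 2)) (by omega) (by omega)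
  set B := c * (16 * r * (2 * r - 2)) with hB
  have hB1 : 1 ≤ B := by
    rw [hB]
    apply Nat.mul_pos hc
    apply Nat.mul_pos <;> omega
  have hBR : (1 : ℝ) ≤ B := by exact_mod_cast hB1
  set γ₁ : ℝ := 1 / B with hγ₁
  have hγ₁pos : 0 < γ₁ := by positivity
  have hγ₁le : γ₁ ≤ 1 := by rw [hγ₁, div_le_one (by positivity)]; exact hBR
  have hCq : (1 : ℝ) ≤ (C : ℝ) * ((2 * r : ℕ) : ℝ) := by
    have : 1 ≤ C * (2 * r) := Nat.mul_pos hC (by omega)
    exact_mod_cast this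
  refine ⟨2 * r, C * (2 + p), γ₁ ^ 2 / (512 * (C * ((2 * r : ℕ) : ℝ))), hq, by positivity, ?_⟩
  intro n hn
  have hnR : (1 : ℝ) ≤ n := by exact_mod_cast hn
  obtain ⟨W, iF, iD, τ, hinj, hWcard, hns, hsp⟩ := hgraph n hn
  have hWpos : 1 ≤ Fintype.card W := by rw [hWcard]; exact Nat.mul_pos hC hn
  have : Nonempty W := Fintype.card_pos_iff.1 hWpos
  obtain ⟨G, hU, hV, hE, hval, hcons⟩ := game_of_graph δ p r hδ (by omega) h1 h2 hr2 φ hφ hφe τ hns
  have hcons' : ∀ k : ℕ, (k : ℝ) ≤ γ₁ * n → G.KConsistent k := by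
    intro k hk
    apply hcons
    intro F hF
    have hBk : B * k ≤ n := by
      have h3 : (B : ℝ) * k ≤ n := by
        have h4 : (B : ℝ) * k ≤ B * (γ₁ * n) := mul_le_mul_of_nonneg_left hk (by positivity)
        have h5 : (B : ℝ) * (γ₁ * n) = n := by rw [hγ₁]; field_simp
        linarith
      exact_mod_cast h3
    have hverts : (verts Prod.fst (fun e : W × Fin p => τ e.2 e.1) F).card ≤ 2 * F.card := by
      unfold verts
      exact card_image_le.trans (card_darts F).le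
    have h6 : c * (verts Prod.fst (fun e : W × Fin p => τ e.2 e.1) F).card ≤ n := by
      refine le_trans ?_ hBk
      rw [hB, mul_assoc]
      apply Nat.mul_le_mul_left
      calc _ ≤ 2 * F.card := hverts
        _ ≤ 2 * (2 * r * (4 * (2 * r - 2) * k)) := Nat.mul_le_mul_left _ hF
        _ = 16 * r * (2 * r - 2) * k := by ring
    have h7 := hsp F h6
    by_cases hle : (verts Prod.fst (fun e : W × Fin p => τ e.2 e.1) F).card ≤ F.card
    · nlinarith
    · push Not at hle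
      have := Nat.mul_le_mul_left (6 * (2 * r - 2)) hle.le
      omega
  refine ⟨G, ?_, ?_, ?_, hval, ?_⟩
  · rw [hU, hWcard]; exact Nat.le_mul_of_pos_left n hC
  · rw [hV, hWcard]; exact Nat.le_mul_of_pos_left n hC
  · rw [hU, hV, hE, hWcard]
    apply le_of_eq; ring
  · intro k hk
    have hγle : γ₁ ^ 2 / (512 * (C * ((2 * r : ℕ) : ℝ))) ≤ γ₁ / 16 := by
      rw [div_le_div_iff₀ (by positivity) (by norm_num)]
      nlinarith
    refine ⟨hcons' k (hk.trans ?_), ?_⟩
    · apply mul_le_mul_of_nonneg_right _ (by positivity)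
      linarith
    intro L R
    rcases Nat.eq_zero_or_pos k with rfl | hkpos
    · obtain ⟨t, _⟩ := R.last
      have := t.isLt
      simp only [pow_zero]
      omega
    have hk1 : (1 : ℝ) ≤ k := by exact_mod_cast hkpos
    have h16 : 16 ≤ γ₁ * n := by
      have : (1 : ℝ) ≤ γ₁ / 16 * n := by
        refine hk1.trans (hk.trans ?_)
        exact mul_le_mul_of_nonneg_right hγle (by positivity)
      linarith
    set K := ⌊γ₁ * n⌋₊ with hK
    have hKle : (K : ℝ) ≤ γ₁ * n := Nat.floor_le (by positivity)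
    have hKgt : γ₁ * n < K + 1 := Nat.lt_floor_add_one _
    have hK16 : 16 ≤ K := Nat.le_floor (by exact_mod_cast h16)
    have hd : (γ₁ * n) / 16 ≤ ((K / 4 : ℕ) : ℝ) := by
      have h8 : K ≤ 8 * (K / 4) := by omega
      have h9 : (K : ℝ) ≤ 8 * ((K / 4 : ℕ) : ℝ) := by exact_mod_cast h8
      linarith
    have hsize := size_lower_bound G (hcons' K hKle) R (d := K / 4) (t := K / 4) (by omega)
      (by omega)
    have hcard : Fintype.card (G.U ⊕ G.V) = 2 * (C * n) := by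
      rw [Fintype.card_sum, ← Nat.card_eq_fintype_card, ← Nat.card_eq_fintype_card, hU, hV, hWcard]
      ring
    rw [hcard] at hsize
    have hexp : (k : ℝ) ≤ ((K / 4 : ℕ) : ℝ) *
        (((K / 4 : ℕ) : ℝ) / ((2 * (C * n) * (2 * r) : ℕ) : ℝ)) := by
      refine hk.trans ?_
      have h10 : (γ₁ * n / 16) * (γ₁ * n / 16) ≤ ((K / 4 : ℕ) : ℝ) * ((K / 4 : ℕ) : ℝ) :=
        mul_le_mul hd hd (by positivity) (by positivity)
      have h11 : (0 : ℝ) < ((2 * (C * n) * (2 * r) : ℕ) : ℝ) := by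
        have : 0 < 2 * (C * n) * (2 * r) := by positivity
        exact_mod_cast this
      rw [← mul_div_assoc, le_div_iff₀ h11]
      refine le_trans (le_of_eq ?_) h10
      push_cast
      have hC0 : (C : ℝ) ≠ 0 := by
        have : 0 < C := hC
        positivity
      have hr0 : (r : ℝ) ≠ 0 := by
        have : 0 < r := by omega
        positivity
      field_simp
      ring
    have h2k : ((2 ^ k : ℕ) : ℝ) ≤ Real.exp k := by
      push_cast
      rw [show (k : ℝ) = k * 1 by ring, Real.exp_nat_mul]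
      apply pow_le_pow_left₀ (by norm_num)
      have := Real.exp_one_gt_d9
      linarith
    have hfin : ((2 ^ k : ℕ) : ℝ) ≤ L := by
      refine h2k.trans (le_trans ?_ hsize)
      exact Real.exp_le_exp.2 hexp
    exact_mod_cast hfin

end Pool.Agent.MP_ec946a
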