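import Pool.Agent.Lib.MP_ec946a_Games.Main

/-!
# 2-to-1 games with perfect completeness: exponential lower bounds for refutations by clauses

For every soundness `0 < δ ≤ 1/2` there are 2-to-1 games of value at most `δ`, with `Θ(n)` vertices
and edges, over an alphabet of size `O((1/δ) log (1/δ))`, for which every derivation of the fact
that the game is not satisfiable, whose lines are clauses and whose steps are arbitrary sound
inferences from at most two premises, has at least `2 ^ ⌊γ n⌋` lines.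
-/

set_option autoImplicit false

namespace Pool.Agent.MP_ec946a.ResolutionSize

open Pool.Agent.MP_ec946a

theorem result : ∀ δ : ℝ, 0 < δ → δ ≤ 1 / 2 →
    ∃ (q C : ℕ) (γ : ℝ), (q : ℝ) ≤ 51 * (1 / δ) * Real.log (1 / δ) ∧ 0 < γ ∧
      ∀ n : ℕ, 1 ≤ n → ∃ G : Game q, n ≤ Nat.card G.U ∧ n ≤ Nat.card G.V ∧
        Nat.card G.U + Nat.card G.V + Nat.card G.E ≤ C * n ∧
        G.value ≤ δ ∧ ∀ L : ℕ, G.Refutation L → 2 ^ ⌊γ * n⌋₊ ≤ L := by
  intro δ hδ hδ2
  obtain ⟨q, C, γ, hq, hγ, h⟩ := main δ hδ hδ2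
  refine ⟨q, C, γ, hq, hγ, fun n hn => ?_⟩
  obtain ⟨G, h1, h2, h3, h4, h5⟩ := h n hn
  exact ⟨G, h1, h2, h3, h4, (h5 _ (Nat.floor_le (by positivity))).2⟩

end Pool.Agent.MP_ec946a.ResolutionSize
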